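import Pool.Agent.Lib.MP_e2257e_gt.C.Stmts
import Pool.Agent.Lib.MP_e2257e_gt.B.Seqs

/-!
# MP_e2257e_gt : the index set has size less than the bounding number
-/

set_option autoImplicit false

open Filter Topology

namespace Pool.Agent.CW

open Pool.Agent.CR (V Fml Nm Memf Eqf Fr natN pairN val Mod nat rat cut Hull GenF RN BigIx
  IsTransModelZFC Memf_mono)

namespace Bdd_

theorem seqN_inj {g g' : ℕ → ℕ} (h : seqN g = seqN g') : g = g' := by
  funext n
  have h1 : ZFSet.pair (nat n) (nat (g n)) ∈ seqN g' := by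
    rw [← h]
    exact Seqs_.pair_mem_seqN.2 rfl
  exact Seqs_.pair_mem_seqN.1 h1

theorem MR_const {P : Type} [Preorder P] (r : ℝ) : MR Set.univ (fun _ : Set P => r) := by
  intro a
  exact @MeasurableSet.const _ (Flt (Set.univ : Set P)) (r < a)

/-- `p` forces the value `k` at `n` of a function paired with the real `r` in the set named by `φ` -/
def RR {P J : Type} [Preorder P] (l : List (Obj P J)) (n k : ℕ) (p : P) : Prop :=
  match l with
  | [.nm φ, .ix r] => ∃ g, MF Set.univ g ∧ Memf (opN (nmR fun _ => r) (nmF g)) φ p ∧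
      Frc {G | g G n = k} p
  | _ => False

/-- a Hechler level above countably many (at most continuum many) names -/
theorem level {P J : Type} [Preorder P] [LinearOrder J] [OrderTop J] {D : Dat P J} (hD : Sys D)
    (h7 : S_stage) (g : ℝ → Set P → ℕ → ℕ) (hg : ∀ r, MF Set.univ (g r)) :
    ∃ β, β < ⊤ ∧ D.hl β ∧ ∀ r, MF (D.St β) (g r) := by
  obtain ⟨_, h8, h9⟩ := h7 P J D hD
  choose j hj1 hj2 using fun r => h8 (g r) (hg r)
  obtain ⟨y, hy1, hy2⟩ := hD.big.reg (Set.range j) (by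
    have := Cardinal.mk_range_le (f := j)
    rwa [Cardinal.mk_real] at this) (by
    rintro x ⟨r, rfl⟩
    exact hj1 r)
  obtain ⟨β, hβ1, hβ2, hβ3⟩ := hD.hcof y hy1
  refine ⟨β, hβ2, hβ3, fun r => ?_⟩
  exact h9 (j r) β ((hy2 _ ⟨r, rfl⟩).trans hβ1).le _ (hj2 r)

end Bdd_

set_option linter.unusedVariables false in
theorem bdd_proof (h1 : S_decN) (h2 : S_ae) (h3 : S_ms) (h4 : S_read) (h5 : S_real)
    (h6 : S_seq) (h7 : S_stage) (h8 : S_EX) : S_bdd := by
  classical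
  intro P J _ _ _ D hD
  have hc := hD.ccc
  obtain ⟨Gd, hGd, hev⟩ := h4 P J hc Bdd_.RR
  choose β hβ1 hβ2 hβ3 using fun φ : Nm P =>
    Bdd_.level hD h7 (fun r => Gd [.nm φ, .ix r]) (fun r => hGd _)
  -- the dominating real is in the world
  have w1 : Ev (fun (M : Set (Obj P J)) (_ : Set P) => ∀ φ ∈ HM M, Obj.fn (D.h (β φ)) ∈ M) := by
    refine (ev_fun fun (l : List (Obj P J)) => match l with
      | [.nm φ] => .fn (D.h (β φ))
      | _ => .nm Nm.emp).mono ?_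
    intro M G h φ hφ
    exact h [.nm φ] (by
      intro x hx
      rw [List.mem_singleton] at hx
      rw [hx]
      exact hφ)
  -- measurable sets
  have w2 : Ev (fun (M : Set (Obj P J)) G => ∀ g, Obj.fn g ∈ M → ∀ n k,
      (MF Set.univ g → g G n = k → ∃ p ∈ G, Frc {G | g G n = k} p) ∧
      ∀ p ∈ G, Frc {G | g G n = k} p → g G n = k) := by
    refine (Ev.all fun x : ℕ × ℕ => h3 P J hc fun (l : List (Obj P J)) => match l with
      | [.fn g] => {G | g G x.1 = x.2}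
      | _ => ∅).mono ?_
    intro M G h g hg n k
    have h9 := h (n, k) [.fn g] (by simpa using hg)
    exact ⟨fun hm he => h9.1 (hm n k) he, fun p hp hf => h9.2 p hp hf⟩
  -- names of functions from conditions
  have w3 : Ev (fun (M : Set (Obj P J)) (_ : Set P) => ∀ φ ∈ HM M, ∀ r, Obj.ix r ∈ M → ∀ p,
      Obj.cn p ∈ M → ∀ n k, Bdd_.RR [Obj.nm (J := J) φ, .ix r] n k p →
        ∃ g, Obj.fn g ∈ M ∧ MF Set.univ g ∧ Memf (opN (nmR fun _ => r) (nmF g)) φ p ∧
          Frc {G | g G n = k} p) := by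
    refine (Ev.all fun x : ℕ × ℕ => ev_rel fun (l : List (Obj P J)) y => match l with
      | [.nm φ, .ix r, .cn p] => ∃ g, y = .fn g ∧ MF Set.univ g ∧
          Memf (opN (nmR fun _ => r) (nmF g)) φ p ∧ Frc {G | g G x.1 = x.2} p
      | _ => False).mono ?_
    rintro M G h φ hφ r hr p hp n k ⟨g, hg1, hg2, hg3⟩
    obtain ⟨y, hy, g', rfl, a1, a2, a3⟩ := h (n, k) [.nm φ, .ix r, .cn p] (by
      intro x hx
      simp only [List.mem_cons, List.not_mem_nil, or_false] at hx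
      rcases hx with rfl | rfl | rfl
      · exact hφ
      · exact hr
      · exact hp) ⟨.fn g, g, rfl, hg1, hg2, hg3⟩
    exact ⟨g', hy, a1, a2, a3⟩
  -- domination
  have w4 : Ev (fun (M : Set (Obj P J)) G => ∀ φ ∈ HM M, ∀ r, Obj.ix r ∈ M →
      ∀ᶠ n in atTop, Gd [.nm φ, .ix r] G n ≤ D.h (β φ) G n) := by
    refine (h2 P J fun (l : List (Obj P J)) => match l with
      | [.nm φ, .ix r] => {G | ∀ᶠ n in atTop, Gd [.nm φ, .ix r] G n ≤ D.h (β φ) G n}
      | _ => Set.univ).mono ?_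
    intro M G h φ hφ r hr
    exact h [.nm φ, .ix r] (by
      intro x hx
      simp only [List.mem_cons, List.not_mem_nil, or_false] at hx
      rcases hx with rfl | rfl
      · exact hφ
      · exact hr) (hD.dom (β φ) (hβ1 φ) (hβ2 φ) _ (hβ3 φ r))
  refine (w1.and (w2.and (w3.and (w4.and (hev.and ((h5 P J hc).and ((h6 P J hc).and
    ((h8 P J D hD).and (ev_mem.and (ev_opN.and (ev_dir.and (ev_sub.and ev_zfc)))))))))))).mono ?_
  rintro M G ⟨e1, e2, e3, e4, e5, ⟨e6, _⟩, ⟨e7, e7'⟩, ⟨e8, ⟨_, e9⟩, _⟩, e10, e11, e12, e13, e14⟩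
    F Φ ⟨φ, hφ, rfl⟩ hΦ
  have hdom := e1 φ hφ
  refine ⟨D.h (β φ) G, ?_, ?_⟩
  · obtain ⟨a1, a2⟩ := e7 _ hdom (hD.h_ms (β φ) (hβ1 φ) (hβ2 φ))
    exact ⟨_, a1, a2⟩
  intro e he
  obtain ⟨r, hr, rfl⟩ := (e9 e).1 he
  -- the function `F e` has a name
  have hpair : ZFSet.pair (cut r) (seqC (F (cut r))) ∈ val (HM M) G φ :=
    (hΦ _).2 ⟨cut r, he, rfl⟩
  have hN : seqN (F (cut r)) ∈ NM M G := by
    have b1 : ZFSet.pair (cut r) (seqC (F (cut r))) ∈ NM M G :=
      e14.transitive _ ⟨φ, hφ, rfl⟩ _ hpair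
    have b2 : ({cut r, seqC (F (cut r))} : V) ∈ NM M G := by
      apply e14.transitive _ b1
      rw [ZFSet.pair, ZFSet.mem_pair]
      exact Or.inr rfl
    apply e14.transitive _ b2
    rw [ZFSet.mem_pair]
    exact Or.inr rfl
  obtain ⟨g', hg1, hg2, hg3⟩ := e7' _ hN
  obtain ⟨hr1, hr2⟩ := e6 (fun _ => r) (e8 r hr).1 (Bdd_.MR_const r)
  have key : ∀ g, Obj.fn g ∈ M → MF Set.univ g →
      ((∃ p ∈ G, Memf (opN (nmR fun _ => r) (nmF g)) φ p) ↔
        ZFSet.pair (cut r) (seqN (g G)) ∈ val (HM M) G φ) := by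
    intro g hg hm
    obtain ⟨c1, c2⟩ := e7 g hg hm
    obtain ⟨c3, c4⟩ := e11 _ hr1 _ c1
    rw [← e10 _ c3 _ hφ, c4, hr2, c2]
  have hval : ∀ n, F (cut r) n = Gd [.nm φ, .ix r] G n := by
    intro n
    have hl : ∀ x ∈ ([.nm φ, .ix r] : List (Obj P J)), x ∈ M := by
      intro x hx
      simp only [List.mem_cons, List.not_mem_nil, or_false] at hx
      rcases hx with rfl | rfl
      · exact hφ
      · exact hr
    obtain ⟨p, hp, hpm⟩ := (key g' hg1 hg2).2 (by rw [hg3]; exact hpair)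
    obtain ⟨p', hp', hpf⟩ := (e2 g' hg1 n (F (cut r) n)).1 hg2 (by rw [hg3])
    obtain ⟨s, hs, hsp, hsp'⟩ := e12 p hp p' hp'
    obtain ⟨p1, hp1, hR⟩ := e5 [.nm φ, .ix r] hl n ⟨s, hs, F (cut r) n, g', hg2,
      Memf_mono hpm hsp, (h1 P hc).2.2.2.2 _ p' s hsp' hpf⟩
    obtain ⟨g2, k1, k2, k3, k4⟩ := e3 φ hφ r hr p1 (e13 p1 hp1) n _ hR
    have k5 := (key g2 k1 k2).1 ⟨p1, hp1, k3⟩
    obtain ⟨e', _, he''⟩ := (hΦ _).1 k5
    obtain ⟨q1, q2⟩ := ZFSet.pair_injective he''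
    rw [← q1] at q2
    have q3 : g2 G = F (cut r) := Bdd_.seqN_inj q2
    have q4 := (e2 g2 k1 n _).2 p1 hp1 k4
    rw [← q4, q3]
  filter_upwards [e4 φ hφ r hr] with n hn
  rw [hval n]
  exact hn

end Pool.Agent.CW
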