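import Pool.Agent.Lib.MP_e2257e_gt.C.Stmts

/-!
# MP_e2257e_gt : names of the moduli of convergence
-/

set_option autoImplicit false

open Filter Topology

namespace Pool.Agent.CW

open Pool.Agent.CR (V Fml Nm Memf Eqf Fr natN pairN val Mod nat rat cut Hull GenF RN BigIx
  IsTransModelZFC)

namespace Bread_

variable {P J : Type} [Preorder P]

theorem memf_mono {σ τ : Nm P} {p q : P} (h : Memf σ τ p) (hq : q ≤ p) : Memf σ τ q := by
  intro r hr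
  exact h r (hr.trans hq)

theorem vb_mono {φ : Nm P} {n k : ℕ} {x : Set P → ℝ} {p q : P} (h : VB φ n k x p) (hq : q ≤ p) :
    VB φ n k x q :=
  fun f hf r hr hm => h f hf r (hr.trans hq) hm

theorem vb_loc (h1 : S_loc) (hc : CCC P) {φ : Nm P} {n k : ℕ} {x : Set P → ℝ} {p : P}
    (h : ∀ q ≤ p, ∃ r ≤ q, VB φ n k x r) : VB φ n k x p := by
  intro f hf q hq hm
  refine (h1 P hc).1 _ q fun q' hq' => ?_
  obtain ⟨r, hr, hv⟩ := h q' (hq'.trans hq)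
  exact ⟨r, hr, hv f hf r le_rfl (memf_mono hm (hr.trans hq'))⟩

/-- the relation for `S_read` -/
def RR (l : List (Obj P J)) (n k : ℕ) (p : P) : Prop :=
  ∃ (φ : Nm P) (x : Set P → ℝ), l = [Obj.nm φ, Obj.re x] ∧ ∀ m, k ≤ m → VB φ n m x p

theorem RR_iff (φ : Nm P) (x : Set P → ℝ) (n k : ℕ) (p : P) :
    RR ([Obj.nm φ, Obj.re x] : List (Obj P J)) n k p ↔ ∀ m, k ≤ m → VB φ n m x p := by
  constructor
  · rintro ⟨φ', x', h, h'⟩
    have h2 := List.cons.inj h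
    have h3 := List.cons.inj h2.2
    have e1 : φ = φ' := Obj.nm.inj h2.1
    have e2 : x = x' := Obj.re.inj h3.1
    subst e1; subst e2
    exact h'
  · intro h
    exact ⟨φ, x, rfl, h⟩

/-- the set for `ev_dense` -/
def SS (y : ℕ × ℕ) (l : List (Obj P J)) : Set P :=
  {p | RR l y.1 y.2 p ∨ ∃ (φ : Nm P) (x : Set P → ℝ), l = [Obj.nm φ, Obj.re x] ∧
    ∃ m, y.2 ≤ m ∧ ∀ q ≤ p, ¬ VB φ y.1 m x q}

theorem SS_dense (h1 : S_loc) (hc : CCC P) (y : ℕ × ℕ) (φ : Nm P) (x : Set P → ℝ) (p : P) :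
    ∃ q ≤ p, q ∈ SS y ([Obj.nm φ, Obj.re x] : List (Obj P J)) := by
  by_cases h : ∃ m, y.2 ≤ m ∧ ∃ q ≤ p, ∀ r ≤ q, ¬ VB φ y.1 m x r
  · obtain ⟨m, hm, q, hq, hr⟩ := h
    exact ⟨q, hq, Or.inr ⟨φ, x, rfl, m, hm, hr⟩⟩
  · refine ⟨p, le_rfl, Or.inl ((RR_iff φ x _ _ p).2 fun m hm => vb_loc h1 hc fun q hq => ?_)⟩
    by_contra hcon
    exact h ⟨m, hm, q, hq, fun r hr hv => hcon ⟨r, hr, hv⟩⟩

end Bread_

open Bread_ in
theorem bread_proof (h1 : S_loc) (h2 : S_read) (h3 : S_vb) : S_bread := by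
  intro P J _ hc
  obtain ⟨Gd, hG1, hG2⟩ := h2 P J hc (RR (P := P) (J := J))
  refine ⟨Gd, hG1, ?_⟩
  refine ((hG2.and (h3 P J hc)).and ((Ev.all fun y : ℕ × ℕ => ev_dense (SS (P := P) (J := J) y)).and
    ev_dir)).mono ?_
  rintro M G ⟨⟨hR, hV⟩, hD, hdir⟩ φ hφ x hx hxm X F hval hxX hT n k hk
  have hl : ∀ z ∈ ([Obj.nm φ, Obj.re x] : List (Obj P J)), z ∈ M := by
    intro z hz
    simp only [List.mem_cons, List.not_mem_nil, or_false] at hz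
    rcases hz with rfl | rfl
    · exact hφ
    · exact hx
  have hV' := hV φ hφ x hx hxm X F hval hxX
  -- the modulus exists in the world
  obtain ⟨k0, hk0⟩ : ∃ k0, ∀ m, k0 ≤ m → |F n m (x G)| ≤ 1 / ((n : ℝ) + 1) := by
    have hpos : (0 : ℝ) < 1 / ((n : ℝ) + 1) := by positivity
    have h4 := (Metric.tendsto_atTop.1 (hT n)) _ hpos
    obtain ⟨k0, hk0⟩ := h4
    refine ⟨k0, fun m hm => ?_⟩
    have h5 := hk0 m hm
    rw [Real.dist_eq, sub_zero] at h5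
    exact h5.le
  obtain ⟨s, hsG, hs⟩ := hD (n, k0) [Obj.nm φ, Obj.re x] hl
    (fun p => SS_dense h1 hc (n, k0) φ x p)
  have hex : ∃ p ∈ G, ∃ k, RR ([Obj.nm φ, Obj.re x] : List (Obj P J)) n k p := by
    rcases hs with hs | ⟨φ', x', he, m, hm, hq⟩
    · exact ⟨s, hsG, k0, hs⟩
    · exfalso
      have e2 := List.cons.inj he
      have e3 := List.cons.inj e2.2
      have e4 : φ = φ' := Obj.nm.inj e2.1
      have e5 : x = x' := Obj.re.inj e3.1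
      subst e4; subst e5
      obtain ⟨p, hp, hv⟩ := (hV' n m).1 (hk0 m hm)
      obtain ⟨r, _, hr1, hr2⟩ := hdir p hp s hsG
      exact hq r hr2 (vb_mono hv hr1)
  obtain ⟨p, hp, hRp⟩ := hR [Obj.nm φ, Obj.re x] hl n hex
  exact (hV' n k).2 ⟨p, hp, (RR_iff φ x _ _ p).1 hRp k hk⟩

end Pool.Agent.CW
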