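import Pool.Agent.Lib.MP_e2257e_gt.C.MStmt
import Pool.Agent.Lib.MP_e2257e_gt.B.EvZFC
import Pool.Agent.Lib.MP_72b52d_lc.CR.Defs2

/-!
# MP_e2257e_gt : the interface between the iteration and the model (definitions)
-/

set_option autoImplicit false

open Filter Topology

namespace Pool.Agent.CW

open Pool.Agent.CR (V Fml Nm Memf Eqf Fr natN pairN val Mod nat rat cut Hull GenF RN BigIx)

/-- the data: the Hechler levels `hl`, the stages `St`, the dominating reals `h`, the towers `t` (the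
rows are the real numbers), a coding of subsets of `ℕ × ℕ` by real numbers -/
structure Dat (P J : Type) where
  hl : J → Prop
  St : J → Set P
  h : J → Set P → ℕ → ℕ
  t : ℝ → J → Set P → Set ℕ
  emb : Set (ℕ × ℕ) → ℝ

/-- the coding is a homeomorphism onto a set of irrational numbers -/
structure EmbP (emb : Set (ℕ × ℕ) → ℝ) : Prop where
  irr : ∀ A, Irrational (emb A)
  inj : ∀ n : ℕ, ∃ ε > 0, ∀ A B, |emb A - emb B| < ε → ∀ i < n, ∀ j < n, (i, j) ∈ A ↔ (i, j) ∈ B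
  cts : ∀ ε > 0, ∃ n : ℕ, ∀ A B, (∀ i < n, ∀ j < n, (i, j) ∈ A ↔ (i, j) ∈ B) → |emb A - emb B| < ε

variable {P J : Type} [Preorder P] [LinearOrder J] [OrderTop J]

/-- the properties of the iteration used for the model -/
structure Sys (D : Dat P J) : Prop where
  ccc : CCC P
  emb : EmbP D.emb
  big : BigIx J
  mono : ∀ i j, i ≤ j → D.St i ⊆ D.St j
  cov : ∀ p, ∃ j < ⊤, p ∈ D.St j
  hcof : ∀ j < ⊤, ∃ β, j < β ∧ β < ⊤ ∧ D.hl β
  tcof : ∀ j < ⊤, ∃ α, j < α ∧ α < ⊤ ∧ ¬ D.hl α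
  h_ms : ∀ β < ⊤, D.hl β → MF Set.univ (D.h β)
  t_ms : ∀ x, ∀ α < ⊤, ¬ D.hl α → ∀ k, MS Set.univ {G | k ∈ D.t x α G}
  dom : ∀ β < ⊤, D.hl β → ∀ g, MF (D.St β) g → ∀ᶠ G in gen P, ∀ᶠ n in atTop, g G n ≤ D.h β G n
  tower : ∀ x α' α, α' < α → α < ⊤ → ¬ D.hl α' → ¬ D.hl α →
    ∀ᶠ G in gen P, ∀ᶠ k in atTop, k ∈ D.t x α G → k ∈ D.t x α' G
  unb : ∀ x, ∀ α < ⊤, ¬ D.hl α → ∀ g, MF (D.St α) g →
    ∀ᶠ G in gen P, ∃ᶠ i in atTop, ∀ k, i ≤ k → k < g G i → k ∉ D.t x α G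
  hit : ∀ A : Set P → Set ℕ, (∀ k, MS Set.univ {G | k ∈ A G}) →
    (∀ᶠ G in gen P, (A G).Infinite) → ∃ E : Set ℝ, E.Countable ∧ ∀ x ∉ E, ∀ α < ⊤, ¬ D.hl α →
      ∀ᶠ G in gen P, (A G ∩ D.t x α G).Infinite

/-- the indices of the points of a row: pairs (tower level, Hechler level), and finite sets -/
abbrev Ix (J : Type) : Type := (J × J) ⊕ Finset (ℕ × ℕ)

/-- the valid indices -/
def OkI (D : Dat P J) : Ix J → Prop
  | .inl x => x.2 < x.1 ∧ x.1 < ⊤ ∧ ¬ D.hl x.1 ∧ D.hl x.2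
  | .inr _ => True

/-- the set given by an index: `{(n, m) | n ≤ m < h_β n, m ∈ t^r_α}` or the finite set -/
def AAt (D : Dat P J) (r : ℝ) : Ix J → Set P → Set (ℕ × ℕ)
  | .inl x, G => {y | y.1 ≤ y.2 ∧ y.2 < D.h x.2 G y.1 ∧ y.2 ∈ D.t r x.1 G}
  | .inr d, _ => ↑d

/-- the real number given by an index -/
def pt (D : Dat P J) (r : ℝ) (i : Ix J) (G : Set P) : ℝ := D.emb (AAt D r i G)

/-- the levels of the index are in `M` -/
def InM (M : Set (Obj P J)) : Ix J → Prop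
  | .inl x => Obj.lv x.1 ∈ M ∧ Obj.lv x.2 ∈ M
  | .inr _ => True

/-- the set of reals of the row `r` in the world -/
def XM (D : Dat P J) (M : Set (Obj P J)) (G : Set P) (r : ℝ) : Set ℝ :=
  {x | ∃ i, OkI D i ∧ InM M i ∧ x = pt D r i G}

/-- the name of the set of the ground model reals -/
def EN (P : Type) [Preorder P] : Nm P :=
  .mk (P × ℝ) (fun x => nmR fun _ => x.2) (fun x => x.1)

/-- the name of the family of sets of reals -/
def XN (D : Dat P J) : Nm P :=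
  .mk {x : P × ℝ × Ix J // OkI D x.2.2}
    (fun x => opN (nmR fun _ => x.1.2.1) (nmR (pt D x.1.2.1 x.1.2.2))) (fun x => x.1.1)

open Classical in
/-- the name of the real number `1` if ` (n, n + k)` is in the set given by the index, `0` otherwise -/
noncomputable def ch (D : Dat P J) (r : ℝ) (i : Ix J) (n k : ℕ) (G : Set P) : ℝ :=
  if (n, n + k) ∈ AAt D r i G then 1 else 0

/-- the name of the double sequence of functions on the union -/
noncomputable def FN (D : Dat P J) : Nm P :=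
  .mk {x : P × (ℕ × ℕ) × ℝ × Ix J // OkI D x.2.2.2}
    (fun x => opN (opN (natN _ x.1.2.1.1) (natN _ x.1.2.1.2))
      (opN (nmR (pt D x.1.2.2.1 x.1.2.2.2)) (nmR (ch D x.1.2.2.1 x.1.2.2.2 x.1.2.1.1 x.1.2.1.2))))
    (fun x => x.1.1)

/-- the condition `p` forces that the value of `F n k` at the real named by `x` has absolute value at
most `1 / (n + 1)`, if `φ` is a name of `F` -/
def VB (φ : Nm P) (n k : ℕ) (x : Set P → ℝ) (p : P) : Prop :=
  ∀ f, MR Set.univ f → ∀ q ≤ p,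
    Memf (opN (opN (natN P n) (natN P k)) (opN (nmR x) (nmR f))) φ q →
      Frc {G | |f G| ≤ 1 / ((n : ℝ) + 1)} q

/-- `A` has no points in the square `b × b` outside of the square `i × i` -/
def Miss (A : Set (ℕ × ℕ)) (i b : ℕ) : Prop := ∀ y ∈ A, y.1 < b → y.2 < b → y.1 < i ∧ y.2 < i

end Pool.Agent.CW
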