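import Pool.Agent.Lib.MP_e2257e_gt.C.Stmts

/-!
# MP_e2257e_gt : the values of the names `EN` and `XN` in rich worlds (piece C4)
-/

set_option autoImplicit false

open Filter Topology

namespace Pool.Agent.CW

open Pool.Agent.CR (V Fml Nm Memf Eqf Fr natN pairN val Mod nat rat cut Hull GenF RN BigIx
  mem_val)

namespace EX_

theorem mr_const (P : Type) [Preorder P] (r : ℝ) : MR (P := P) Set.univ (fun _ => r) := by
  intro a
  let _ : MeasurableSpace (Set P) := Flt (Set.univ : Set P)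
  exact MeasurableSet.const _

variable {P J : Type} [Preorder P] [LinearOrder J] [OrderTop J]

omit [Preorder P] [LinearOrder J] [OrderTop J] in
theorem l1 {M : Set (Obj P J)} {a : Obj P J} (ha : a ∈ M) : ∀ x ∈ [a], x ∈ M := by
  simp [ha]

omit [Preorder P] [LinearOrder J] [OrderTop J] in
theorem l2 {M : Set (Obj P J)} {a b : Obj P J} (ha : a ∈ M) (hb : b ∈ M) :
    ∀ x ∈ [a, b], x ∈ M := by
  simp [ha, hb]

omit [Preorder P] [LinearOrder J] [OrderTop J] in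
theorem l3 {M : Set (Obj P J)} {a b c : Obj P J} (ha : a ∈ M) (hb : b ∈ M) (hc : c ∈ M) :
    ∀ x ∈ [a, b, c], x ∈ M := by
  simp [ha, hb, hc]

/-- the points are in the world -/
theorem ev_re (D : Dat P J) : Ev (fun (M : Set (Obj P J)) (_ : Set P) =>
    ∀ r, Obj.ix r ∈ M → Obj.re (fun _ => r) ∈ M ∧ ∀ i, OkI D i → InM M i →
      Obj.re (pt D r i) ∈ M) := by
  refine ((ev_fun fun (l : List (Obj P J)) => match l with
      | [.ix r] => .re (fun _ => r)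
      | _ => .nm Nm.emp).and
    ((ev_fun fun (l : List (Obj P J)) => match l with
      | [.ix r, .lv α, .lv β] => .re (pt D r (.inl (α, β)))
      | _ => .nm Nm.emp).and
    (Ev.all fun d : Finset (ℕ × ℕ) => ev_fun fun (l : List (Obj P J)) => match l with
      | [.ix r] => .re (pt D r (.inr d))
      | _ => .nm Nm.emp))).mono ?_
  rintro M G ⟨h1, h2, h3⟩ r hr
  refine ⟨h1 [.ix r] (l1 hr), ?_⟩
  rintro (⟨α, β⟩ | d) _ hi
  · exact h2 [.ix r, .lv α, .lv β] (l3 hr hi.1 hi.2)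
  · exact h3 d [.ix r] (l1 hr)

/-- names of pairs in the world have indices in the world -/
theorem ev_idx (D : Dat P J) (T : ℝ → Ix J → Nm P) : Ev (fun (M : Set (Obj P J)) (_ : Set P) =>
    ∀ τ ∈ HM M, (∃ r i, OkI D i ∧ τ = T r i) →
      ∃ r i, Obj.ix r ∈ M ∧ InM M i ∧ OkI D i ∧ τ = T r i) := by
  refine ((ev_rel fun (l : List (Obj P J)) x => match l with
      | [.nm τ] => ∃ r i, x = .ix r ∧ OkI D i ∧ τ = T r i
      | _ => False).and
    ((ev_rel fun (l : List (Obj P J)) x => match l with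
      | [.nm τ, .ix r] => ∃ α β, x = .lv α ∧ OkI D (.inl (α, β)) ∧ τ = T r (.inl (α, β))
      | _ => False).and
    (ev_rel fun (l : List (Obj P J)) x => match l with
      | [.nm τ, .ix r, .lv α] => ∃ β, x = .lv β ∧ OkI D (.inl (α, β)) ∧ τ = T r (.inl (α, β))
      | _ => False))).mono ?_
  rintro M G ⟨h1, h2, h3⟩ τ hτ ⟨r0, i0, h4, h5⟩
  obtain ⟨x, hx, r, i, rfl, h6, h7⟩ := h1 [.nm τ] (l1 hτ) ⟨.ix r0, r0, i0, rfl, h4, h5⟩
  rcases i with ⟨α0, β0⟩ | d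
  · obtain ⟨x, hx1, α, β1, rfl, h8, h9⟩ := h2 [.nm τ, .ix r] (l2 hτ hx)
      ⟨.lv α0, α0, β0, rfl, h6, h7⟩
    obtain ⟨x, hx2, β, rfl, h10, h11⟩ := h3 [.nm τ, .ix r, .lv α] (l3 hτ hx hx1)
      ⟨.lv β1, β1, rfl, h8, h9⟩
    exact ⟨r, .inl (α, β), hx, ⟨hx1, hx2⟩, h10, h11⟩
  · exact ⟨r, .inr d, hx, trivial, h6, h7⟩

end EX_

open EX_ in
theorem EX_proof (_h1 : S_ae) (_h2 : S_ms) (h3 : S_real) (h4 : S_pt) : S_EX := by
  intro P J _ _ _ D hD
  refine ((ev_re D).and ((ev_idx D fun r _ => nmR fun _ => r).and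
    ((ev_idx D fun r i => opN (nmR fun _ => r) (nmR (pt D r i))).and
    ((ev_fun fun _ : List (Obj P J) => .nm (EN P)).and
    ((ev_fun fun _ : List (Obj P J) => .nm (XN D)).and
    ((h3 P J hD.ccc).and (ev_opN.and ev_ne))))))).mono ?_
  rintro M G ⟨e1, e2, e3, e4, e5, ⟨e6, _⟩, e7, p, hp⟩
  have hc : ∀ r, Obj.ix r ∈ M → nmR (fun _ => r) ∈ HM M ∧
      val (HM M) G (nmR fun _ => r) = cut r := fun r hr =>
    e6 (fun _ => r) (e1 r hr).1 (mr_const P r)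
  have hpt : ∀ r i, Obj.ix r ∈ M → OkI D i → InM M i → nmR (pt D r i) ∈ HM M ∧
      val (HM M) G (nmR (pt D r i)) = cut (pt D r i G) := fun r i hr hi hm =>
    e6 (pt D r i) ((e1 r hr).2 i hi hm) ((h4 P J D hD r i hi).2.1)
  refine ⟨e1, ⟨e4 [] (by simp), fun z => ?_⟩, e5 [] (by simp), fun z => ?_⟩
  · rw [mem_val]
    constructor
    · rintro ⟨b, hb1, hb2, rfl⟩
      obtain ⟨r, i, hr, _, _, he⟩ := e2 _ hb1 ⟨b.2, .inr ∅, trivial, rfl⟩
      exact ⟨r, hr, by rw [he]; exact (hc r hr).2⟩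
    · rintro ⟨r, hr, rfl⟩
      exact ⟨(p, r), (hc r hr).1, hp, (hc r hr).2.symm⟩
  · rw [mem_val]
    constructor
    · rintro ⟨b, hb1, hb2, rfl⟩
      obtain ⟨r, i, hr, hm, hi, he⟩ := e3 _ hb1 ⟨b.1.2.1, b.1.2.2, b.2, rfl⟩
      refine ⟨r, i, hr, hm, hi, ?_⟩
      rw [he, (e7 _ (hc r hr).1 _ (hpt r i hr hi hm).1).2, (hc r hr).2, (hpt r i hr hi hm).2]
    · rintro ⟨r, i, hr, hm, hi, rfl⟩
      have h5 := e7 _ (hc r hr).1 _ (hpt r i hr hi hm).1
      refine ⟨⟨(p, r, i), hi⟩, h5.1, hp, ?_⟩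
      rw [← (hc r hr).2, ← (hpt r i hr hi hm).2]
      exact h5.2.symm

end Pool.Agent.CW
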