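import Pool.Agent.Lib.MP_e2257e_gt.C.Stmts

/-!
# MP_e2257e_gt : the model, coding of subsets of the square by irrational numbers
-/

set_option autoImplicit false

open Filter Topology

namespace Pool.Agent.CW

namespace Emb_

/-- weights with telescoping sums -/
noncomputable def w (i : ℕ) : ℝ := ((i : ℝ) + 2) / ((i + 3).factorial : ℝ)

theorem w_eq (i : ℕ) : w i = 1 / ((i + 2).factorial : ℝ) - 1 / ((i + 3).factorial : ℝ) := by
  unfold w
  have h1 : ((i + 3).factorial : ℝ) = ((i : ℝ) + 3) * ((i + 2).factorial : ℝ) := by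
    rw [Nat.factorial_succ (i + 2)]
    push_cast
    ring
  have h2 : ((i + 2).factorial : ℝ) ≠ 0 := by positivity
  have h3 : ((i : ℝ) + 3) ≠ 0 := by positivity
  rw [h1]
  field_simp
  ring

theorem w_nonneg (i : ℕ) : 0 ≤ w i := by
  unfold w
  positivity

theorem fac_tend (n : ℕ) : Tendsto (fun m : ℕ => 1 / ((m + n + 2).factorial : ℝ)) atTop (𝓝 0) := by
  refine squeeze_zero (fun m => by positivity) (fun m => ?_)
    (tendsto_one_div_add_atTop_nhds_zero_nat (𝕜 := ℝ))
  refine one_div_le_one_div_of_le (by positivity) ?_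
  have h1 : m + n + 2 ≤ (m + n + 2).factorial := Nat.self_le_factorial _
  have h2 : ((m + n + 2 : ℕ) : ℝ) ≤ ((m + n + 2).factorial : ℝ) := by exact_mod_cast h1
  push_cast at h2
  have h3 : (0 : ℝ) ≤ n := Nat.cast_nonneg n
  linarith

theorem w_sum (n : ℕ) : HasSum (fun i => w (i + n)) (1 / ((n + 2).factorial : ℝ)) := by
  rw [hasSum_iff_tendsto_nat_of_nonneg fun i => w_nonneg _]
  have h1 : ∀ m, ∑ i ∈ Finset.range m, w (i + n) =
      1 / ((n + 2).factorial : ℝ) - 1 / ((m + n + 2).factorial : ℝ) := by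
    intro m
    induction m with
    | zero => simp
    | succ m ih =>
      rw [Finset.sum_range_succ, ih, w_eq]
      have h2 : m + 1 + n + 2 = m + n + 3 := by ring
      rw [h2]
      ring
  simp_rw [h1]
  simpa using tendsto_const_nhds.sub (fac_tend n)

/-- the terms of the series -/
noncomputable def tm (c : ℕ → ℕ) (i : ℕ) : ℝ := (c i : ℝ) / ((i + 3).factorial : ℝ)

/-- the tails -/
noncomputable def tl (c : ℕ → ℕ) (n : ℕ) : ℝ := ∑' i, tm c (i + n)

/-- codes: sequences with the values `1` and `2` -/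
def Cd (c : ℕ → ℕ) : Prop := ∀ i, 1 ≤ c i ∧ c i ≤ 2

theorem tm_le {c : ℕ → ℕ} (hc : Cd c) (i : ℕ) : tm c i ≤ w i := by
  unfold tm w
  refine div_le_div_of_nonneg_right ?_ (by positivity)
  have h1 : (c i : ℝ) ≤ 2 := by exact_mod_cast (hc i).2
  have h2 : (0 : ℝ) ≤ i := Nat.cast_nonneg i
  linarith

theorem tm_lt {c : ℕ → ℕ} (hc : Cd c) {i : ℕ} (hi : 0 < i) : tm c i < w i := by
  unfold tm w
  refine div_lt_div_of_pos_right ?_ (by positivity)
  have h1 : (c i : ℝ) ≤ 2 := by exact_mod_cast (hc i).2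
  have h2 : (0 : ℝ) < i := by exact_mod_cast hi
  linarith

theorem tm_pos {c : ℕ → ℕ} (hc : Cd c) (i : ℕ) : 0 < tm c i := by
  unfold tm
  have h1 : 0 < c i := (hc i).1
  positivity

theorem tm_summable {c : ℕ → ℕ} (hc : Cd c) (n : ℕ) : Summable fun i => tm c (i + n) :=
  Summable.of_nonneg_of_le (fun i => (tm_pos hc _).le) (fun i => tm_le hc _) (w_sum n).summable

theorem tl_pos {c : ℕ → ℕ} (hc : Cd c) (n : ℕ) : 0 < tl c n :=
  (tm_summable hc n).tsum_pos (fun i => (tm_pos hc _).le) 0 (tm_pos hc _)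

theorem tl_lt {c : ℕ → ℕ} (hc : Cd c) (n : ℕ) : tl c n < 1 / ((n + 2).factorial : ℝ) :=
  hasSum_lt (fun i => tm_le hc (i + n)) (tm_lt hc (i := 1 + n) (by omega))
    (tm_summable hc n).hasSum (w_sum n)

theorem tl_split {c : ℕ → ℕ} (hc : Cd c) (n : ℕ) :
    tl c 0 = ∑ i ∈ Finset.range n, tm c i + tl c n := by
  unfold tl
  exact ((tm_summable hc 0).sum_add_tsum_nat_add n).symm

theorem tl_irr {c : ℕ → ℕ} (hc : Cd c) : Irrational (tl c 0) := by
  rintro ⟨q, hq⟩
  set n := q.den with hn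
  set N : ℕ := (n + 2).factorial with hN
  have hNpos : (0 : ℝ) < N := by
    have := Nat.factorial_pos (n + 2)
    exact_mod_cast this
  have h1 : ∃ a : ℤ, (N : ℝ) * tl c 0 = a := by
    have h2 : q.den ∣ N := Nat.dvd_factorial q.den_pos (by omega)
    obtain ⟨m, hm⟩ := h2
    refine ⟨m * q.num, ?_⟩
    rw [← hq, hm]
    have h3 : (q : ℝ) * (q.den : ℝ) = q.num := by
      have := Rat.mul_den_eq_num q
      exact_mod_cast this
    push_cast
    rw [← h3]
    ring
  have h4 : ∃ b : ℤ, (N : ℝ) * ∑ i ∈ Finset.range n, tm c i = b := by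
    have h5 : ∀ i ∈ Finset.range n, ∃ b : ℤ, (N : ℝ) * tm c i = b := by
      intro i hi
      have h6 : (i + 3).factorial ∣ N :=
        Nat.factorial_dvd_factorial (by have := Finset.mem_range.1 hi; omega)
      obtain ⟨m, hm⟩ := h6
      refine ⟨m * c i, ?_⟩
      rw [hm]
      unfold tm
      have h7 : ((i + 3).factorial : ℝ) ≠ 0 := by positivity
      push_cast
      field_simp
    choose! b hb using h5
    refine ⟨∑ i ∈ Finset.range n, b i, ?_⟩
    rw [Finset.mul_sum]
    push_cast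
    exact Finset.sum_congr rfl hb
  obtain ⟨a, ha⟩ := h1
  obtain ⟨b, hb⟩ := h4
  have h8 : (N : ℝ) * tl c n = ((a - b : ℤ) : ℝ) := by
    have := tl_split hc n
    push_cast
    rw [← ha, ← hb, this]
    ring
  have h9 : 0 < (N : ℝ) * tl c n := mul_pos hNpos (tl_pos hc n)
  have h10 : (N : ℝ) * tl c n < 1 := by
    have := mul_lt_mul_of_pos_left (tl_lt hc n) hNpos
    rw [← hN, mul_one_div_cancel hNpos.ne'] at this
    exact this
  rw [h8] at h9 h10
  have h11 : 0 < a - b := by exact_mod_cast h9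
  have h12 : a - b < 1 := by exact_mod_cast h10
  omega

theorem tl_diff {c d : ℕ → ℕ} (hc : Cd c) (hd : Cd d) (n : ℕ) :
    |tl c n - tl d n| ≤ 1 / 2 * (1 / ((n + 2).factorial : ℝ)) := by
  have h1 : tl c n - tl d n = ∑' i, (tm c (i + n) - tm d (i + n)) :=
    ((tm_summable hc n).tsum_sub (tm_summable hd n)).symm
  have h2 : ∀ i, |tm c (i + n) - tm d (i + n)| ≤ 1 / 2 * w (i + n) := by
    intro i
    unfold tm w
    rw [← sub_div, abs_div, abs_of_pos (a := ((i + n + 3).factorial : ℝ)) (by positivity),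
      ← mul_div_assoc]
    refine div_le_div_of_nonneg_right ?_ (by positivity)
    have a1 : (1 : ℝ) ≤ c (i + n) := by exact_mod_cast (hc (i + n)).1
    have a2 : (c (i + n) : ℝ) ≤ 2 := by exact_mod_cast (hc (i + n)).2
    have a3 : (1 : ℝ) ≤ d (i + n) := by exact_mod_cast (hd (i + n)).1
    have a4 : (d (i + n) : ℝ) ≤ 2 := by exact_mod_cast (hd (i + n)).2
    have a5 : (0 : ℝ) ≤ ((i + n : ℕ) : ℝ) := Nat.cast_nonneg _
    rw [abs_le]
    constructor <;> linarith
  have h3 : HasSum (fun i => 1 / 2 * w (i + n)) (1 / 2 * (1 / ((n + 2).factorial : ℝ))) :=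
    (w_sum n).mul_left _
  rw [h1, ← Real.norm_eq_abs]
  refine tsum_of_norm_bounded h3 fun i => ?_
  rw [Real.norm_eq_abs]
  exact h2 i

theorem tl_agree {c d : ℕ → ℕ} (hc : Cd c) (hd : Cd d) {n : ℕ} (h : ∀ i < n, c i = d i) :
    |tl c 0 - tl d 0| ≤ 1 / 2 * (1 / ((n + 2).factorial : ℝ)) := by
  rw [tl_split hc n, tl_split hd n]
  have h1 : ∑ i ∈ Finset.range n, tm c i = ∑ i ∈ Finset.range n, tm d i := by
    refine Finset.sum_congr rfl fun i hi => ?_
    unfold tm
    rw [h i (Finset.mem_range.1 hi)]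
  rw [h1, add_sub_add_left_eq_sub]
  exact tl_diff hc hd n

theorem tl_far {c d : ℕ → ℕ} (hc : Cd c) (hd : Cd d) {n : ℕ} (h : ∀ i < n, c i = d i)
    (hn : c n ≠ d n) : 1 / 2 * (1 / ((n + 3).factorial : ℝ)) ≤ |tl c 0 - tl d 0| := by
  have h1 : ∑ i ∈ Finset.range n, tm c i = ∑ i ∈ Finset.range n, tm d i := by
    refine Finset.sum_congr rfl fun i hi => ?_
    unfold tm
    rw [h i (Finset.mem_range.1 hi)]
  have h2 : tl c 0 - tl d 0 = (tm c n - tm d n) + (tl c (n + 1) - tl d (n + 1)) := by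
    rw [tl_split hc (n + 1), tl_split hd (n + 1), Finset.sum_range_succ, Finset.sum_range_succ, h1]
    ring
  have h3 := tl_diff hc hd (n + 1)
  have h4 : |tm c n - tm d n| = 1 / ((n + 3).factorial : ℝ) := by
    unfold tm
    rw [← sub_div, abs_div, abs_of_pos (a := ((n + 3).factorial : ℝ)) (by positivity)]
    congr 1
    have b1 := hc n
    have b2 := hd n
    have b3 : (c n = 1 ∧ d n = 2) ∨ (c n = 2 ∧ d n = 1) := by omega
    rcases b3 with ⟨b4, b5⟩ | ⟨b4, b5⟩ <;> rw [b4, b5] <;> norm_num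
  have h5 : |tm c n - tm d n| ≤ |tl c 0 - tl d 0| + |tl c (n + 1) - tl d (n + 1)| := by
    have h6 : tm c n - tm d n = (tl c 0 - tl d 0) - (tl c (n + 1) - tl d (n + 1)) := by
      rw [h2]; ring
    rw [h6]
    exact abs_sub _ _
  have h7 : n + 1 + 2 = n + 3 := by ring
  rw [h7] at h3
  rw [h4] at h5
  linarith

open Classical in
/-- the code of a set -/
noncomputable def cd (A : Set (ℕ × ℕ)) (i : ℕ) : ℕ := if Nat.unpair i ∈ A then 2 else 1

theorem cd_cd (A : Set (ℕ × ℕ)) : Cd (cd A) := by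
  intro i
  unfold cd
  split_ifs <;> norm_num

theorem cd_iff {A B : Set (ℕ × ℕ)} {i : ℕ} :
    cd A i = cd B i ↔ (Nat.unpair i ∈ A ↔ Nat.unpair i ∈ B) := by
  unfold cd
  split_ifs <;> simp_all

end Emb_

open Emb_ in
/-- (C1) -/
theorem emb_proof : S_emb := by
  refine ⟨fun A => tl (cd A) 0, ⟨fun A => tl_irr (cd_cd A), fun n => ?_, fun ε hε => ?_⟩⟩
  · obtain ⟨N, hN⟩ : ∃ N, ∀ i < n, ∀ j < n, Nat.pair i j < N := by
      refine ⟨(n + 1) ^ 2, fun i hi j hj => ?_⟩
      refine (Nat.pair_lt_max_add_one_sq i j).trans_le ?_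
      have : max i j + 1 ≤ n + 1 := by omega
      exact Nat.pow_le_pow_left this 2
    refine ⟨1 / 2 * (1 / ((N + 3).factorial : ℝ)), by positivity, fun A B hAB => ?_⟩
    have h1 : ∀ k < N, cd A k = cd B k := by
      by_contra hcon
      push Not at hcon
      have hex : ∃ k, cd A k ≠ cd B k := ⟨_, hcon.choose_spec.2⟩
      have h2 := Nat.find_spec hex
      have h3 : ∀ i < Nat.find hex, cd A i = cd B i := fun i hi => by
        by_contra h
        exact Nat.find_min hex hi h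
      have h4 := tl_far (cd_cd A) (cd_cd B) h3 h2
      have h5 : Nat.find hex ≤ N := by
        obtain ⟨k, hk1, hk2⟩ := hcon
        exact (Nat.find_min' hex hk2).trans hk1.le
      have h6 : ((Nat.find hex + 3).factorial : ℝ) ≤ ((N + 3).factorial : ℝ) := by
        exact_mod_cast Nat.factorial_le (by omega)
      have h7 : 1 / ((N + 3).factorial : ℝ) ≤ 1 / ((Nat.find hex + 3).factorial : ℝ) :=
        one_div_le_one_div_of_le (by positivity) h6
      linarith
    intro i hi j hj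
    have h8 := cd_iff.1 (h1 _ (hN i hi j hj))
    simpa using h8
  · obtain ⟨n, hn⟩ : ∃ n : ℕ, 1 / ((n + 0 + 2).factorial : ℝ) < ε :=
      ((fac_tend 0).eventually (gt_mem_nhds hε)).exists
    refine ⟨n, fun A B h => ?_⟩
    have h1 : ∀ k < n, cd A k = cd B k := by
      intro k hk
      rw [cd_iff]
      have h2 := h (Nat.unpair k).1 ((Nat.unpair_left_le k).trans_lt hk) (Nat.unpair k).2
        ((Nat.unpair_right_le k).trans_lt hk)
      simpa using h2
    have h3 := tl_agree (cd_cd A) (cd_cd B) h1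
    have h4 : (0 : ℝ) < 1 / ((n + 2).factorial : ℝ) := by positivity
    rw [add_zero] at hn
    linarith

end Pool.Agent.CW
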