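import Pool.Agent.Lib.MP_e2257e_gt.C.Stmts

/-!
# MP_e2257e_gt : the value of the name of the double sequence
-/

set_option autoImplicit false

open Filter Topology

namespace Pool.Agent.CW

open Pool.Agent.CR (V Fml Nm Memf Eqf Fr natN pairN val Mod nat rat cut Hull GenF RN BigIx
  IsTransModelZFC mem_val)

namespace Fam_

theorem emb_inj {emb : Set (ℕ × ℕ) → ℝ} (h : EmbP emb) {A B : Set (ℕ × ℕ)}
    (hAB : emb A = emb B) : A = B := by
  ext ⟨i, j⟩
  obtain ⟨ε, hε, h1⟩ := h.inj (max i j + 1)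
  exact h1 A B (by rw [hAB, sub_self, abs_zero]; exact hε) i
    (Nat.lt_succ_of_le (le_max_left i j)) j (Nat.lt_succ_of_le (le_max_right i j))

open Classical in
/-- the functions -/
noncomputable def Fa (emb : Set (ℕ × ℕ) → ℝ) (n k : ℕ) (x : ℝ) : ℝ :=
  if ∃ A, emb A = x ∧ (n, n + k) ∈ A then 1 else 0

theorem Fa_of_mem {emb : Set (ℕ × ℕ) → ℝ} {n k : ℕ} {A : Set (ℕ × ℕ)}
    (hA : (n, n + k) ∈ A) : Fa emb n k (emb A) = 1 := by
  unfold Fa
  rw [if_pos ⟨A, rfl, hA⟩]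

theorem Fa_of_not_mem {emb : Set (ℕ × ℕ) → ℝ} (h : EmbP emb) {n k : ℕ} {A : Set (ℕ × ℕ)}
    (hA : (n, n + k) ∉ A) : Fa emb n k (emb A) = 0 := by
  unfold Fa
  rw [if_neg]
  rintro ⟨B, hB, hB'⟩
  rw [emb_inj h hB] at hB'
  exact hA hB'

variable {P J : Type} [Preorder P] [LinearOrder J] [OrderTop J]

/-- find the parameters of a name in the world -/
theorem ev_find (D : Dat P J) (f : ℝ → Ix J → Nm P) :
    Ev (fun (M : Set (Obj P J)) (_ : Set P) => ∀ τ ∈ HM M, (∃ r i, OkI D i ∧ τ = f r i) →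
      ∃ r i, Obj.ix r ∈ M ∧ InM M i ∧ OkI D i ∧ τ = f r i) := by
  refine ((ev_rel fun (l : List (Obj P J)) x => match l with
      | [.nm τ] => ∃ r i, x = .ix r ∧ OkI D i ∧ τ = f r i
      | _ => False).and
    ((ev_rel fun (l : List (Obj P J)) x => match l with
      | [.nm τ, .ix r] => ∃ a b, x = .lv a ∧ OkI D (.inl (a, b)) ∧ τ = f r (.inl (a, b))
      | _ => False).and
    (ev_rel fun (l : List (Obj P J)) x => match l with
      | [.nm τ, .ix r, .lv a] => ∃ b, x = .lv b ∧ OkI D (.inl (a, b)) ∧ τ = f r (.inl (a, b))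
      | _ => False))).mono ?_
  rintro M G ⟨h1, h2, h3⟩ τ hτ ⟨r0, i0, h4, h5⟩
  obtain ⟨x, hx, r, i, rfl, h6, h7⟩ := h1 [.nm τ] (by
    intro x hx
    rw [List.mem_singleton] at hx
    rw [hx]; exact hτ) ⟨.ix r0, r0, i0, rfl, h4, h5⟩
  rcases i with ⟨a0, b0⟩ | d
  · obtain ⟨y, hy, a, b1, rfl, h8, h9⟩ := h2 [.nm τ, .ix r] (by
      intro x hx'
      rcases List.mem_cons.1 hx' with rfl | hx'
      · exact hτ
      · rw [List.mem_singleton] at hx'
        rw [hx']; exact hx) ⟨.lv a0, a0, b0, rfl, h6, h7⟩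
    obtain ⟨z, hz, b, rfl, h10, h11⟩ := h3 [.nm τ, .ix r, .lv a] (by
      intro x hx'
      rcases List.mem_cons.1 hx' with rfl | hx'
      · exact hτ
      · rcases List.mem_cons.1 hx' with rfl | hx'
        · exact hx
        · rw [List.mem_singleton] at hx'
          rw [hx']; exact hy) ⟨.lv b1, b1, rfl, h8, h9⟩
    exact ⟨r, .inl (a, b), hx, ⟨hy, hz⟩, h10, h11⟩
  · exact ⟨r, .inr d, hx, trivial, h6, h7⟩

omit [LinearOrder J] [OrderTop J] in
/-- real functions with parameters are in the world -/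
theorem ev_re (f : ℝ → Ix J → Set P → ℝ) :
    Ev (fun (M : Set (Obj P J)) (_ : Set P) => ∀ r, Obj.ix r ∈ M → ∀ i, InM M i →
      Obj.re (f r i) ∈ M) := by
  refine ((ev_fun fun (l : List (Obj P J)) => match l with
      | [.ix r, .lv a, .lv b] => .re (f r (.inl (a, b)))
      | _ => .nm Nm.emp).and
    (Ev.all fun d : Finset (ℕ × ℕ) => ev_fun fun (l : List (Obj P J)) => match l with
      | [.ix r] => .re (f r (.inr d))
      | _ => .nm Nm.emp)).mono ?_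
  rintro M G ⟨h1, h2⟩ r hr i hi
  rcases i with ⟨a, b⟩ | d
  · obtain ⟨ha, hb⟩ := hi
    exact h1 [.ix r, .lv a, .lv b] (by
      intro x hx
      rcases List.mem_cons.1 hx with rfl | hx
      · exact hr
      · rcases List.mem_cons.1 hx with rfl | hx
        · exact ha
        · rw [List.mem_singleton] at hx
          rw [hx]; exact hb)
  · exact h2 d [.ix r] (by
      intro x hx
      rw [List.mem_singleton] at hx
      rw [hx]; exact hr)

/-- the names of the elements -/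
noncomputable def nF (D : Dat P J) (n k : ℕ) (r : ℝ) (i : Ix J) : Nm P :=
  opN (opN (natN P n) (natN P k)) (opN (nmR (pt D r i)) (nmR (ch D r i n k)))

theorem Fa_pt {D : Dat P J} (hD : Sys D) (n k : ℕ) (r : ℝ) (i : Ix J) (G : Set P) :
    Fa D.emb n k (pt D r i G) = ch D r i n k G := by
  unfold ch pt
  split_ifs with h
  · exact Fa_of_mem h
  · exact Fa_of_not_mem hD.emb h

/-- values of the names of the elements -/
theorem ev_val (h3 : S_real) (h4 : S_pt) (D : Dat P J) (hD : Sys D) :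
    Ev (fun (M : Set (Obj P J)) G => ∀ n k r, Obj.ix r ∈ M → ∀ i, OkI D i → InM M i →
      nF D n k r i ∈ HM M ∧ val (HM M) G (nF D n k r i) =
        ZFSet.pair (ZFSet.pair (nat n) (nat k))
          (ZFSet.pair (cut (pt D r i G)) (cut (Fa D.emb n k (pt D r i G))))) := by
  refine ((ev_re (P := P) (J := J) fun r i => pt D r i).and
    ((Ev.all fun x : ℕ × ℕ => ev_re (P := P) (J := J) fun r i => ch D r i x.1 x.2).and
    ((h3 P J hD.ccc).and (ev_natN.and ev_opN)))).mono ?_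
  rintro M G ⟨a1, a2, ⟨a3, _⟩, a4, a5⟩ n k r hr i hi hM
  obtain ⟨_, m1, m2⟩ := h4 P J D hD r i hi
  obtain ⟨b1, b2⟩ := a3 _ (a1 r hr i hM) m1
  obtain ⟨b3, b4⟩ := a3 _ (a2 (n, k) r hr i hM) (m2 n k)
  obtain ⟨c1, c2⟩ := a5 _ (a4 n).1 _ (a4 k).1
  obtain ⟨c3, c4⟩ := a5 _ b1 _ b3
  obtain ⟨c5, c6⟩ := a5 _ c1 _ c3
  refine ⟨c5, ?_⟩
  unfold nF
  rw [c6, c2, c4, (a4 n).2, (a4 k).2, b2, b4, Fa_pt hD]

end Fam_

theorem F_proof (_ : S_ae) (_ : S_ms) (h3 : S_real) (h4 : S_pt) (_ : S_EX) : S_F := by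
  intro P J _ _ _ D hD
  refine ⟨Fam_.Fa D.emb, fun n k A hA => Fam_.Fa_of_mem hA,
    fun n k A hA => Fam_.Fa_of_not_mem hD.emb hA, ?_⟩
  refine ((ev_fun fun (_ : List (Obj P J)) => Obj.nm (FN D)).and
    ((Ev.all fun x : ℕ × ℕ => Fam_.ev_find D (Fam_.nF D x.1 x.2)).and
    ((Fam_.ev_val h3 h4 D hD).and ev_ne))).mono ?_
  rintro M G ⟨a1, a2, a3, a4⟩
  refine ⟨a1 [] (by simp), ?_⟩
  apply ZFSet.ext
  intro z
  rw [mem_val, famC, ZFSet.mem_range]
  constructor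
  · rintro ⟨⟨⟨p, ⟨n, k⟩, r0, i0⟩, hb⟩, hb1, _, rfl⟩
    obtain ⟨r, i, c1, c2, c3, c4⟩ := a2 (n, k) _ hb1 ⟨r0, i0, hb, rfl⟩
    obtain ⟨_, c5⟩ := a3 n k r c1 i c3 c2
    refine ⟨⟨(n, k, pt D r i G), r, c1, i, c3, c2, rfl⟩, ?_⟩
    rw [c4]
    exact c5.symm
  · rintro ⟨⟨⟨n, k, x⟩, r, c1, i, c3, c2, hx⟩, rfl⟩
    obtain ⟨p, hp⟩ := a4
    obtain ⟨c6, c5⟩ := a3 n k r c1 i c3 c2
    refine ⟨⟨(p, (n, k), r, i), c3⟩, c6, hp, ?_⟩
    have hx' : x = pt D r i G := hx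
    subst hx'
    exact c5.symm

end Pool.Agent.CW
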