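import Pool.Agent.Lib.MP_e2257e_gt.C.Stmts
import Pool.Agent.Lib.MP_72b52d_lc.CR.EvReal

/-!
# MP_e2257e_gt : the main statement from the interface (piece C12)
-/

set_option autoImplicit false

open Filter Topology

namespace Pool.Agent.CW

open Pool.Agent.CR (V Fml Nm Memf Eqf Fr natN pairN val Mod nat rat cut Hull GenF RN BigIx
  IsTransModelZFC cut_inj)

theorem fin_proof (h1 : S_EX) (h2 : S_bdd) (h3 : S_sel) (h4 : S_nsel) : S_fin := by
  intro P J _ _ _ _ D hD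
  obtain ⟨p0⟩ := ‹Nonempty P›
  obtain ⟨M, G, -, -, hcnt, hzfc, ⟨-, ⟨hE, hE'⟩, hX, hX'⟩, hbdd, hsel, hnsel⟩ :=
    Ev.exists ((ev_cnt (P := P) (J := J)).and (ev_zfc.and ((h1 P J D hD).and
      ((h2 P J D hD).and ((h3 P J D hD).and (h4 P J D hD)))))) ∅ Set.countable_empty p0
  have hN : (NM M G).Countable := by
    have h5 : (HM M).Countable :=
      hcnt.preimage_of_injOn (f := fun τ : Nm P => (Obj.nm τ : Obj P J))
        (fun a _ b _ h => Obj.nm.inj h)
    exact h5.image (val (HM M) G)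
  have hfib : ∀ r, Obj.ix r ∈ M → fib (val (HM M) G (XN D)) (cut r) = XM D M G r := by
    intro r hr
    ext x
    constructor
    · intro hx
      have hx' : ZFSet.pair (cut r) (cut x) ∈ val (HM M) G (XN D) := hx
      obtain ⟨r', i, hr', hi, hok, heq⟩ := (hX' _).1 hx'
      obtain ⟨e1, e2⟩ := ZFSet.pair_injective heq
      have e3 := cut_inj e1
      subst e3
      exact ⟨i, hok, hi, cut_inj e2⟩
    · rintro ⟨i, hok, hi, rfl⟩
      have hx' : ZFSet.pair (cut r) (cut (pt D r i G)) ∈ val (HM M) G (XN D) :=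
        (hX' _).2 ⟨r, i, hr, hi, hok, rfl⟩
      exact hx'
  refine ⟨NM M G, hN, hzfc, val (HM M) G (EN P), ⟨EN P, hE, rfl⟩, val (HM M) G (XN D),
    ⟨XN D, hX, rfl⟩, hbdd, ?_, ?_, ?_⟩
  · intro e he x hx
    obtain ⟨r, hr, rfl⟩ := (hE' _).1 he
    rw [hfib r hr] at hx
    obtain ⟨i, -, -, rfl⟩ := hx
    exact hD.emb.irr _
  · intro e he
    obtain ⟨r, hr, rfl⟩ := (hE' _).1 he
    rw [hfib r hr]
    exact hsel r hr
  · have hU : {x | ∃ e ∈ val (HM M) G (EN P), x ∈ fib (val (HM M) G (XN D)) e} =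
        {x | ∃ r, Obj.ix r ∈ M ∧ x ∈ XM D M G r} := by
      ext x
      constructor
      · rintro ⟨e, he, hx⟩
        obtain ⟨r, hr, rfl⟩ := (hE' _).1 he
        rw [hfib r hr] at hx
        exact ⟨r, hr, hx⟩
      · rintro ⟨r, hr, hx⟩
        refine ⟨cut r, (hE' _).2 ⟨r, hr, rfl⟩, ?_⟩
        rw [hfib r hr]
        exact hx
    rw [hU]
    exact hnsel

end Pool.Agent.CW
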