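import Pool.Agent.Lib.MP_72b52d_lc.CR.Stmt

/-!
# MP_e2257e_gt : the statement

There is a countable transitive model `N` of `ZFC` in which the following holds: there are an index
set `E` of size less than `𝔟` and sets of irrational numbers `X e`, `e ∈ E`, such that every `C_p(X e)`
satisfies `S₁(Γ₀, Γ₀)`, but `C_p` of the union does not.  All notions are relativised to `N`.
The language of set theory, `IsTransModelZFC`, the coding `nat` of natural numbers by von Neumann
numerals and `cut` of real numbers by Dedekind cuts are in the imported file.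
-/

set_option autoImplicit false

open Filter Topology

namespace Pool.Agent.CW

open Pool.Agent.CR (V nat cut IsTransModelZFC)

/-- the function `g` from `ℕ` to `ℕ` as a set: the set of the pairs ` (n, g n)` -/
noncomputable def seqC (g : ℕ → ℕ) : V :=
  ZFSet.range (fun n : ℕ => ZFSet.pair (nat n) (nat (g n)))

/-- the family of the functions `F n k` restricted to `X` as a set: the set of all
` ((n, k), (x, F n k x))` with `x ∈ X` -/
noncomputable def famC (X : Set ℝ) (F : ℕ → ℕ → ℝ → ℝ) : V :=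
  ZFSet.range (fun t : {t : ℕ × ℕ × ℝ // t.2.2 ∈ X} =>
    ZFSet.pair (ZFSet.pair (nat t.1.1) (nat t.1.2.1))
      (ZFSet.pair (cut t.1.2.2) (cut (F t.1.1 t.1.2.1 t.1.2.2))))

/-- In the model `N`, `C_p(X)` satisfies `S₁(Γ₀, Γ₀)`: for every double sequence (of `N`) of continuous
functions `F n k` on `X` such that `F n k` converges pointwise to `0` for `k → ∞` and every `n`, there
is a sequence `m` (of `N`) such that `F n (m n)` converges pointwise to `0`. -/
def Selective (N : Set V) (X : Set ℝ) : Prop :=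
  ∀ F : ℕ → ℕ → ℝ → ℝ, famC X F ∈ N → (∀ n k, ContinuousOn (F n k) X) →
    (∀ n, ∀ x ∈ X, Tendsto (fun k => F n k x) atTop (𝓝 0)) →
    ∃ m : ℕ → ℕ, seqC m ∈ N ∧ ∀ x ∈ X, Tendsto (fun n => F n (m n) x) atTop (𝓝 0)

/-- In the model `N`, the size of `E` is less than `𝔟`: every family `F e`, `e ∈ E`, (of `N`) of
functions from `ℕ` to `ℕ` has an upper bound (in `N`) with respect to eventual domination. -/
def LtB (N : Set V) (E : V) : Prop :=
  ∀ (F : V → ℕ → ℕ) (Φ : V), Φ ∈ N → (∀ z, z ∈ Φ ↔ ∃ e ∈ E, z = ZFSet.pair e (seqC (F e))) →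
    ∃ g : ℕ → ℕ, seqC g ∈ N ∧ ∀ e ∈ E, ∀ᶠ n in atTop, F e n ≤ g n

/-- the `e`-th set of reals of the family coded by `𝒳` -/
def fib (𝒳 e : V) : Set ℝ := {x | ZFSet.pair e (cut x) ∈ 𝒳}

/-- The statement: in some countable transitive model `N` of `ZFC` there are an index set `E` with
fewer than `𝔟` elements and a family `𝒳` of sets `fib 𝒳 e`, `e ∈ E`, of irrational numbers whose
function spaces satisfy `S₁(Γ₀, Γ₀)`, while the function space of the union does not. -/
def MainStatement : Prop :=
  ∃ N : Set V, N.Countable ∧ IsTransModelZFC N ∧ ∃ E ∈ N, ∃ 𝒳 ∈ N, LtB N E ∧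
    (∀ e ∈ E, ∀ x ∈ fib 𝒳 e, Irrational x) ∧
    (∀ e ∈ E, Selective N (fib 𝒳 e)) ∧
    ¬ Selective N {x | ∃ e ∈ E, x ∈ fib 𝒳 e}

end Pool.Agent.CW
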