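import Pool.Agent.Lib.MP_e2257e_gt.C.Stmts

/-!
# MP_e2257e_gt : the union is not selective (C11)
-/

set_option autoImplicit false

open Filter Topology

namespace Pool.Agent.CW

open Pool.Agent.CR (V Fml Nm Memf Eqf Fr natN pairN val Mod nat rat cut Hull GenF RN BigIx
  IsTransModelZFC)

namespace Nsel_

variable {P J : Type} [Preorder P] [LinearOrder J] [OrderTop J]

/-- the set of the numbers `n + g n` -/
def AA (g : Set P → ℕ → ℕ) (G : Set P) : Set ℕ := {v | ∃ n, v = n + g G n}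

omit [Preorder P] in
theorem AA_inf (g : Set P → ℕ → ℕ) (G : Set P) : (AA g G).Infinite := by
  rw [Set.infinite_iff_exists_gt]
  intro a
  exact ⟨(a + 1) + g G (a + 1), ⟨a + 1, rfl⟩, by omega⟩

omit [Preorder P] in
theorem AA_ms (g : Set P → ℕ → ℕ) (hg : MF Set.univ g) (k : ℕ) :
    MS Set.univ {G | k ∈ AA g G} := by
  have h : {G | k ∈ AA g G} = ⋃ n, (if n ≤ k then {G | g G n = k - n} else ∅) := by
    ext G
    rw [Set.mem_iUnion]
    constructor
    · rintro ⟨n, hn⟩
      refine ⟨n, ?_⟩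
      rw [if_pos (by omega)]
      change g G n = k - n
      omega
    · rintro ⟨n, hn⟩
      by_cases hnk : n ≤ k
      · rw [if_pos hnk] at hn
        have hn' : g G n = k - n := hn
        exact ⟨n, by omega⟩
      · rw [if_neg hnk] at hn
        exact absurd hn (Set.notMem_empty _)
  rw [h]
  unfold MS
  apply @MeasurableSet.iUnion
  intro n
  split_ifs
  · exact hg n (k - n)
  · exact @MeasurableSet.empty _ (Flt Set.univ)

omit [Preorder P] in
theorem succ_mf (g : Set P → ℕ → ℕ) (hg : MF Set.univ g) :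
    MF Set.univ (fun G n => n + g G n + 1) := by
  intro n k
  by_cases hk : n + 1 ≤ k
  · have h : {G : Set P | n + g G n + 1 = k} = {G | g G n = k - (n + 1)} := by
      ext G
      change n + g G n + 1 = k ↔ g G n = k - (n + 1)
      omega
    rw [h]
    exact hg n _
  · have h : {G : Set P | n + g G n + 1 = k} = ∅ := by
      ext G
      constructor
      · intro h'
        have h'' : n + g G n + 1 = k := h'
        omega
      · intro h'
        exact absurd h' (Set.notMem_empty _)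
    rw [h]
    exact @MeasurableSet.empty _ (Flt Set.univ)

/-- the choices in the ground model -/
theorem choices (h4 : S_stage) (D : Dat P J) (hS : Sys D) (g : Set P → ℕ → ℕ) :
    ∃ (r : ℝ) (β α : J), MF Set.univ g → β < α ∧ α < ⊤ ∧ ¬ D.hl α ∧ D.hl β ∧
      (∀ᶠ G in gen P, (AA g G ∩ D.t r α G).Infinite) ∧
      ∀ᶠ G in gen P, ∀ᶠ n in atTop, n + g G n + 1 ≤ D.h β G n := by
  by_cases hg : MF Set.univ g
  · obtain ⟨E, hE, hE2⟩ := hS.hit (AA g) (AA_ms g hg)
      (Filter.Eventually.of_forall fun G => AA_inf g G)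
    obtain ⟨r, hr⟩ : ∃ r : ℝ, r ∉ E := by
      by_contra hcon
      push Not at hcon
      have : E = Set.univ := Set.eq_univ_of_forall hcon
      rw [this] at hE
      exact Cardinal.not_countable_real hE
    obtain ⟨_, hst, hmono⟩ := h4 P J D hS
    obtain ⟨j, hj, hj2⟩ := hst _ (succ_mf g hg)
    obtain ⟨β, hβ1, hβ2, hβ3⟩ := hS.hcof j hj
    obtain ⟨α, hα1, hα2, hα3⟩ := hS.tcof β hβ2
    refine ⟨r, β, α, fun _ => ⟨hα1, hα2, hα3, hβ3, hE2 r hr α hα2 hα3, ?_⟩⟩
    exact hS.dom β hβ2 hβ3 _ (hmono j β hβ1.le _ hj2)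
  · exact ⟨0, ⊤, ⊤, fun h => absurd h hg⟩

end Nsel_

open Nsel_ in
theorem nsel_proof (h1 : S_ae) (h2 : S_ms) (h3 : S_seq) (h4 : S_stage) (h5 : S_F)
    (h6 : S_EX) : S_nsel := by
  intro P J _ _ _ D hS
  obtain ⟨F, hF1, hF0, hFN⟩ := h5 P J D hS
  choose r β α hc using fun g => choices h4 D hS g
  let Fr_ : List (Obj P J) → Obj P J := fun l => match l with
    | [.fn g] => .ix (r g)
    | _ => .ix 0
  let Fβ : List (Obj P J) → Obj P J := fun l => match l with
    | [.fn g] => .lv (β g)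
    | _ => .ix 0
  let Fα : List (Obj P J) → Obj P J := fun l => match l with
    | [.fn g] => .lv (α g)
    | _ => .ix 0
  let S : List (Obj P J) → Set (Set P) := fun l => match l with
    | [.fn g] => {G | (AA g G ∩ D.t (r g) (α g) G).Infinite ∧
        ∀ᶠ n in atTop, n + g G n + 1 ≤ D.h (β g) G n}
    | _ => Set.univ
  refine ((hFN.and (h3 P J hS.ccc)).and ((h1 P J S).and ((ev_fun Fr_).and
    ((ev_fun Fβ).and (ev_fun Fα))))).mono ?_
  rintro M G ⟨⟨⟨hm1, hm2⟩, _, hseq⟩, hae, hr, hβ, hα⟩ hsel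
  set X : Set ℝ := {x | ∃ r, Obj.ix r ∈ M ∧ x ∈ XM D M G r} with hX
  have hXp : ∀ x ∈ X, ∃ (r : ℝ) (i : Ix J), x = D.emb (AAt D r i G) := by
    rintro x ⟨r, _, i, _, _, hx⟩
    exact ⟨r, i, hx⟩
  obtain ⟨m, hm, hlim⟩ := hsel F (by
      rw [← hm2]
      exact ⟨FN D, hm1, rfl⟩) (by
      intro n k
      rw [Metric.continuousOn_iff]
      intro x hx ε hε
      obtain ⟨δ, hδ, hδ2⟩ := hS.emb.inj (n + k + 1)
      refine ⟨δ, hδ, fun y hy hyx => ?_⟩
      obtain ⟨r1, i1, rfl⟩ := hXp x hx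
      obtain ⟨r2, i2, rfl⟩ := hXp y hy
      rw [Real.dist_eq] at hyx
      have h7 := hδ2 _ _ hyx n (by omega) (n + k) (by omega)
      have h8 : F n k (D.emb (AAt D r2 i2 G)) = F n k (D.emb (AAt D r1 i1 G)) := by
        by_cases h9 : (n, n + k) ∈ AAt D r1 i1 G
        · rw [hF1 n k _ h9, hF1 n k _ (h7.2 h9)]
        · rw [hF0 n k _ h9, hF0 n k _ (fun h => h9 (h7.1 h))]
      rw [h8, dist_self]
      exact hε) (by
      intro n x hx
      obtain ⟨r1, i1, rfl⟩ := hXp x hx
      have h7 : ∀ᶠ k in atTop, (n, n + k) ∉ AAt D r1 i1 G := by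
        rcases i1 with y | d
        · filter_upwards [eventually_ge_atTop (D.h y.2 G n)] with k hk h8
          have h9 : n + k < D.h y.2 G n := h8.2.1
          omega
        · filter_upwards [eventually_ge_atTop (d.sup (fun y => y.2) + 1)] with k hk h8
          have h9 : (n, n + k) ∈ d := h8
          have h10 : n + k ≤ d.sup (fun y => y.2) := Finset.le_sup (f := fun y => y.2) h9
          omega
      refine tendsto_const_nhds.congr' ?_
      filter_upwards [h7] with k hk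
      rw [hF0 n k _ hk])
  obtain ⟨g, hgM, hgF, hgG⟩ := hseq m hm
  have hl : ∀ x ∈ [(Obj.fn g : Obj P J)], x ∈ M := by
    intro x hx
    rw [List.mem_singleton] at hx
    rw [hx]
    exact hgM
  obtain ⟨c1, c2, c3, c4, c5, c6⟩ := hc g hgF
  have hrM : Obj.ix (r g) ∈ M := hr [.fn g] hl
  have hβM : Obj.lv (β g) ∈ M := hβ [.fn g] hl
  have hαM : Obj.lv (α g) ∈ M := hα [.fn g] hl
  obtain ⟨hinf, hdom⟩ : (AA g G ∩ D.t (r g) (α g) G).Infinite ∧
      ∀ᶠ n in atTop, n + g G n + 1 ≤ D.h (β g) G n :=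
    hae [.fn g] hl (c5.and c6)
  have hx : D.emb (AAt D (r g) (.inl (α g, β g)) G) ∈ X :=
    ⟨r g, hrM, .inl (α g, β g), ⟨c1, c2, c3, c4⟩, ⟨hαM, hβM⟩, rfl⟩
  have hsmall : ∀ᶠ n in atTop, F n (m n) (D.emb (AAt D (r g) (.inl (α g, β g)) G)) < 1 :=
    (hlim _ hx).eventually (gt_mem_nhds one_pos)
  obtain ⟨N, hN⟩ := eventually_atTop.1 (hdom.and hsmall)
  -- an element of the infinite set beyond `N`
  obtain ⟨v, ⟨⟨n, hn⟩, hv⟩, hvN⟩ := hinf.exists_notMem_finset
    ((Finset.range N).image fun n => n + g G n)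
  have hnN : N ≤ n := by
    by_contra hcon
    push Not at hcon
    apply hvN
    rw [Finset.mem_image]
    exact ⟨n, Finset.mem_range.2 hcon, hn.symm⟩
  obtain ⟨hd, hs⟩ := hN n hnN
  have hmem : (n, n + m n) ∈ AAt D (r g) (.inl (α g, β g)) G := by
    rw [← hgG]
    refine ⟨Nat.le_add_right _ _, ?_, ?_⟩
    · change n + g G n < D.h (β g) G n
      omega
    · change n + g G n ∈ D.t (r g) (α g) G
      rw [← hn]
      exact hv
  rw [hF1 n (m n) _ hmem] at hs
  exact lt_irrefl _ hs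

end Pool.Agent.CW
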