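import Pool.Agent.Lib.MP_e2257e_gt.C.Stmts

/-!
# MP_e2257e_gt : measurability of the points
-/

set_option autoImplicit false

namespace Pool.Agent.CW

variable {P J : Type} [Preorder P] [LinearOrder J] [OrderTop J]

private theorem ptm_iUnion {ι : Type} [Countable ι] {A : ι → Set (Set P)}
    (h : ∀ i, MS Set.univ (A i)) : MS Set.univ (⋃ i, A i) :=
  @MeasurableSet.iUnion (Set P) ι (Flt Set.univ) _ A h

private theorem ptm_iInter {ι : Type} [Countable ι] {A : ι → Set (Set P)}
    (h : ∀ i, MS Set.univ (A i)) : MS Set.univ (⋂ i, A i) :=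
  @MeasurableSet.iInter (Set P) ι (Flt Set.univ) _ A h

private theorem ptm_inter {A B : Set (Set P)} (hA : MS Set.univ A) (hB : MS Set.univ B) :
    MS Set.univ (A ∩ B) :=
  @MeasurableSet.inter (Set P) (Flt Set.univ) A B hA hB

private theorem ptm_compl {A : Set (Set P)} (hA : MS Set.univ A) : MS Set.univ Aᶜ :=
  @MeasurableSet.compl (Set P) A (Flt Set.univ) hA

private theorem ptm_const (p : Prop) : MS Set.univ {_G : Set P | p} :=
  @MeasurableSet.const (Set P) (Flt Set.univ) p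

/-- membership in the sets of the indices -/
private theorem ptm_mem {D : Dat P J} (hD : Sys D) (r : ℝ) (i : Ix J) (hi : OkI D i)
    (y : ℕ × ℕ) : MS Set.univ {G | y ∈ AAt D r i G} := by
  rcases i with x | d
  · obtain ⟨h1, h2, h3, h4⟩ := hi
    have e : {G | y ∈ AAt D r (Sum.inl x) G} = {_G : Set P | y.1 ≤ y.2} ∩
        ((⋃ k : {k : ℕ // y.2 < k}, {G | D.h x.2 G y.1 = k.1}) ∩ {G | y.2 ∈ D.t r x.1 G}) := by
      ext G
      simp only [AAt, Set.mem_ofPred_eq, Set.mem_inter_iff, Set.mem_iUnion]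
      constructor
      · rintro ⟨a, b, c⟩
        exact ⟨a, ⟨⟨_, b⟩, rfl⟩, c⟩
      · rintro ⟨a, ⟨k, hk⟩, c⟩
        exact ⟨a, hk ▸ k.2, c⟩
    rw [e]
    exact ptm_inter (ptm_const _) (ptm_inter (ptm_iUnion fun k =>
      hD.h_ms x.2 (h1.trans h2) h4 y.1 k.1) (hD.t_ms r x.1 h2 h3 y.2))
  · exact ptm_const (y ∈ (↑d : Set (ℕ × ℕ)))

theorem pt_proof (hmr : S_mr) : S_pt := by
  intro P J _ _ _ D hD r i hi
  have h1 := ptm_mem hD r i hi
  refine ⟨h1, fun a => ?_, fun n k => ?_⟩
  · classical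
    -- the set is a countable union of events of finite squares
    have e : {G | pt D r i G < a} = ⋃ x : {x : ℕ × Finset (ℕ × ℕ) //
        ∀ B : Set (ℕ × ℕ), (∀ i < x.1, ∀ j < x.1, (i, j) ∈ B ↔ (i, j) ∈ x.2) → D.emb B < a},
        ⋂ ij : {ij : ℕ × ℕ // ij.1 < x.1.1 ∧ ij.2 < x.1.1},
          {G | ij.1 ∈ AAt D r i G ↔ ij.1 ∈ x.1.2} := by
      ext G
      simp only [Set.mem_ofPred_eq, Set.mem_iUnion, Set.mem_iInter]
      constructor
      · intro hG
        have hG' : D.emb (AAt D r i G) < a := hG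
        obtain ⟨n, hn⟩ := hD.emb.cts (a - D.emb (AAt D r i G)) (by linarith)
        refine ⟨⟨(n, (Finset.range n ×ˢ Finset.range n).filter fun y => y ∈ AAt D r i G),
          fun B hB => ?_⟩, fun ij => ?_⟩
        · have h2 := hn (AAt D r i G) B (fun i' hi' j' hj' => by
            rw [hB i' hi' j' hj', Finset.mem_filter, Finset.mem_product, Finset.mem_range,
              Finset.mem_range]
            exact ⟨fun h => ⟨⟨hi', hj'⟩, h⟩, fun h => h.2⟩)
          have h3 := (abs_lt.1 h2).1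
          linarith
        · show ij.1 ∈ AAt D r i G ↔ ij.1 ∈ (Finset.range n ×ˢ Finset.range n).filter
            fun y => y ∈ AAt D r i G
          rw [Finset.mem_filter, Finset.mem_product, Finset.mem_range, Finset.mem_range]
          exact ⟨fun h => ⟨ij.2, h⟩, fun h => h.2⟩
      · rintro ⟨x, hx⟩
        exact x.2 _ fun i' hi' j' hj' => hx ⟨(i', j'), hi', hj'⟩
    rw [e]
    refine ptm_iUnion fun x => ptm_iInter fun ij => ?_
    by_cases hm : ij.1 ∈ x.1.2
    · have e2 : {G | ij.1 ∈ AAt D r i G ↔ ij.1 ∈ x.1.2} = {G | ij.1 ∈ AAt D r i G} := by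
        ext G
        simp only [Set.mem_ofPred_eq, hm, iff_true]
      rw [e2]
      exact h1 ij.1
    · have e2 : {G | ij.1 ∈ AAt D r i G ↔ ij.1 ∈ x.1.2} = {G | ij.1 ∈ AAt D r i G}ᶜ := by
        ext G
        simp only [Set.mem_ofPred_eq, hm, iff_false, Set.mem_compl_iff]
      rw [e2]
      exact ptm_compl (h1 ij.1)
  · rw [hmr]
    have h2 := h1 (n, n + k)
    unfold ch
    exact Measurable.ite (m := Flt Set.univ) h2 measurable_const measurable_const

end Pool.Agent.CW
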