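import Pool.Agent.Lib.MP_e2257e_gt.C.Stmts

/-!
# MP_e2257e_gt : every row is selective (piece C10)
-/

set_option autoImplicit false

open Filter Topology

namespace Pool.Agent.CW

open Pool.Agent.CR (V Fml Nm Memf Eqf Fr natN pairN val Mod nat rat cut Hull GenF RN BigIx
  IsTransModelZFC)

namespace Sel_

/-- `t` has no points in `[i, g i)` -/
def Pd (g : ℕ → ℕ) (t : Set ℕ) (i : ℕ) : Prop := ∀ k, i ≤ k → k < g i → k ∉ t

open Classical in
/-- the least `i ≥ n, h n` with `Pd g t i` -/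
noncomputable def ind (h g : ℕ → ℕ) (t : Set ℕ) (n : ℕ) : ℕ :=
  if hx : ∃ i, max n (h n) ≤ i ∧ Pd g t i then Nat.find hx else 0

theorem ind_spec {h g : ℕ → ℕ} {t : Set ℕ} (hf : ∃ᶠ i in atTop, Pd g t i) (n : ℕ) :
    max n (h n) ≤ ind h g t n ∧ Pd g t (ind h g t n) := by
  classical
  have hx : ∃ i, max n (h n) ≤ i ∧ Pd g t i := by
    obtain ⟨i, h1, h2⟩ := frequently_atTop.1 hf (max n (h n))
    exact ⟨i, h1, h2⟩
  have h1 := Nat.find_spec hx
  unfold ind
  rw [dif_pos hx]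
  exact h1

/-- the sum of the moduli -/
def gW {Ω : Type*} (W : Ω → ℕ → ℕ) (G : Ω) (i : ℕ) : ℕ :=
  ∑ n ∈ Finset.range (i + 1), (W G (Nat.pair n i)).unpair.2

theorem le_gW {Ω : Type*} (W : Ω → ℕ → ℕ) (G : Ω) {n i : ℕ} (h : n ≤ i) :
    (W G (Nat.pair n i)).unpair.2 ≤ gW W G i := by
  unfold gW
  exact Finset.single_le_sum (f := fun n => (W G (Nat.pair n i)).unpair.2)
    (fun _ _ => Nat.zero_le _) (Finset.mem_range.2 (Nat.lt_succ_of_le h))

section
variable {Ω : Type*} [MeasurableSpace Ω]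

theorem meas_comp {w : Ω → ℕ → ℕ} {f : Ω → ℕ} (hw : ∀ k, Measurable fun G => w G k)
    (hf : Measurable f) : Measurable fun G => w G (f G) := by
  refine measurable_to_countable' fun m => ?_
  have : (fun G => w G (f G)) ⁻¹' {m} = ⋃ k, (f ⁻¹' {k} ∩ (fun G => w G k) ⁻¹' {m}) := by
    ext G
    simp
  rw [this]
  exact MeasurableSet.iUnion fun k =>
    (hf (measurableSet_singleton k)).inter (hw k (measurableSet_singleton m))

theorem meas_gW {W : Ω → ℕ → ℕ} (hW : ∀ k, Measurable fun G => W G k) (i : ℕ) :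
    Measurable fun G => gW W G i := by
  unfold gW
  refine Finset.measurable_sum _ fun n _ => ?_
  exact (measurable_from_nat (f := fun m : ℕ => m.unpair.2)).comp (hW _)

theorem meas_ind {h g : Ω → ℕ → ℕ} {t : Ω → Set ℕ} (hh : ∀ n, Measurable fun G => h G n)
    (hg : ∀ n, Measurable fun G => g G n) (ht : ∀ k, MeasurableSet {G | k ∈ t G}) (n : ℕ) :
    Measurable fun G => ind (h G) (g G) (t G) n := by
  classical
  have hQ : ∀ j, MeasurableSet {G | max n (h G n) ≤ j ∧ Pd (g G) (t G) j} := by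
    intro j
    have e : {G | max n (h G n) ≤ j ∧ Pd (g G) (t G) j} =
        ((fun G => h G n) ⁻¹' {m | max n m ≤ j}) ∩
          ⋂ k, ⋂ (_ : j ≤ k), (((fun G => g G j) ⁻¹' {m | k < m})ᶜ ∪ {G | k ∈ t G}ᶜ) := by
      ext G
      simp only [Set.mem_ofPred_eq, Set.mem_inter_iff, Set.mem_preimage, Set.mem_iInter,
        Set.mem_union, Set.mem_compl_iff, Pd]
      refine and_congr Iff.rfl (forall_congr' fun k => forall_congr' fun _ => ?_)
      tauto
    rw [e]
    refine (hh n (MeasurableSet.of_discrete)).inter (MeasurableSet.iInter fun k =>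
      MeasurableSet.iInter fun _ => ?_)
    exact (hg j (MeasurableSet.of_discrete)).compl.union (ht k).compl
  refine measurable_to_countable' fun k => ?_
  have e : (fun G => ind (h G) (g G) (t G) n) ⁻¹' {k} =
      ({G | max n (h G n) ≤ k ∧ Pd (g G) (t G) k} ∩
        ⋂ j, ⋂ (_ : j < k), {G | max n (h G n) ≤ j ∧ Pd (g G) (t G) j}ᶜ) ∪
      ({_G | k = 0} ∩ ⋂ j, {G | max n (h G n) ≤ j ∧ Pd (g G) (t G) j}ᶜ) := by
    ext G
    simp only [Set.mem_preimage, Set.mem_singleton_iff, Set.mem_union, Set.mem_inter_iff,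
      Set.mem_iInter, Set.mem_compl_iff, Set.mem_ofPred_eq]
    by_cases hx : ∃ i, max n (h G n) ≤ i ∧ Pd (g G) (t G) i
    · have e1 : ind (h G) (g G) (t G) n = Nat.find hx := by
        unfold ind
        rw [dif_pos hx]
      rw [e1, Nat.find_eq_iff]
      constructor
      · rintro ⟨h1, h2⟩
        exact Or.inl ⟨h1, fun j hj => h2 j hj⟩
      · rintro (⟨h1, h2⟩ | ⟨_, h2⟩)
        · exact ⟨h1, fun j hj => h2 j hj⟩
        · obtain ⟨i, hi⟩ := hx
          exact absurd hi (h2 i)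
    · have e1 : ind (h G) (g G) (t G) n = 0 := by
        unfold ind
        rw [dif_neg hx]
      rw [e1]
      push Not at hx
      constructor
      · rintro rfl
        exact Or.inr ⟨rfl, fun j hj => hx j hj.1 hj.2⟩
      · rintro (⟨h1, _⟩ | ⟨h1, _⟩)
        · exact absurd h1.2 (hx k h1.1)
        · exact h1.symm
  rw [e]
  refine MeasurableSet.union ((hQ k).inter (MeasurableSet.iInter fun j =>
    MeasurableSet.iInter fun _ => (hQ j).compl)) (MeasurableSet.inter ?_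
    (MeasurableSet.iInter fun j => (hQ j).compl))
  exact MeasurableSet.const _

end

theorem mf_iff {P : Type} [Preorder P] {S : Set P} {g : Set P → ℕ → ℕ} :
    MF S g ↔ ∀ n, @Measurable _ _ (Flt S) _ (fun G => g G n) := by
  constructor
  · intro h n
    let _ : MeasurableSpace (Set P) := Flt S
    exact measurable_to_countable' fun k => h n k
  · intro h n k
    exact h n (measurableSet_singleton k)

/-- the index is below the tower level `a` -/
def Low {J : Type} [LinearOrder J] (a : J) : Ix J → Prop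
  | .inl x => x.1 < a
  | .inr _ => True

theorem card_low {P J : Type} [Preorder P] [LinearOrder J] [OrderTop J] (D : Dat P J) (hJ : BigIx J)
    (a : J) (ha : a < ⊤) :
    Cardinal.mk {idx : Ix J // OkI D idx ∧ Low a idx} ≤ Cardinal.continuum := by
  have hinj : Function.Injective (fun x : {idx : Ix J // OkI D idx ∧ Low a idx} =>
      (match x with
        | ⟨.inl y, h⟩ => Sum.inl (⟨y.1, h.2⟩, ⟨y.2, h.1.1.trans h.2⟩)
        | ⟨.inr d, _⟩ => Sum.inr d : (Set.Iio a × Set.Iio a) ⊕ Finset (ℕ × ℕ))) := by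
    rintro ⟨x, hx⟩ ⟨y, hy⟩ h
    rcases x with x | x <;> rcases y with y | y
    · simp only [Sum.inl.injEq, Prod.mk.injEq, Subtype.mk.injEq] at h
      apply Subtype.ext
      exact congrArg Sum.inl (Prod.ext h.1 h.2)
    · simp at h
    · simp at h
    · simp only [Sum.inr.injEq] at h
      apply Subtype.ext
      exact congrArg Sum.inr h
  refine (Cardinal.mk_le_of_injective hinj).trans ?_
  rw [Cardinal.mk_sum, Cardinal.mk_prod]
  simp only [Cardinal.lift_id]
  refine Cardinal.add_le_of_le Cardinal.aleph0_le_continuum ?_ ?_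
  · exact Cardinal.mul_le_of_le Cardinal.aleph0_le_continuum (hJ.small a ha) (hJ.small a ha)
  · exact Cardinal.mk_le_aleph0.trans Cardinal.aleph0_le_continuum

end Sel_

open Sel_

theorem sel_proof (h1 : S_ae) (_h2 : S_ms) (h3 : S_seq) (h4 : S_stage) (h5 : S_EX) (h6 : S_bread)
    (h7 : S_wread) (_h8 : S_real) (h9 : S_pt) : S_sel := by
  intro P J _ _ _ D hD
  classical
  obtain ⟨Gb, hGb, evb⟩ := h6 P J hD.ccc
  obtain ⟨Gw, hGw, evw⟩ := h7 P J D hD
  obtain ⟨-, st2, st3⟩ := h4 P J D hD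
  -- choices in the ground model
  have ch : ∀ (φ : Nm P) (r : ℝ), ∃ a a' : J, a < ⊤ ∧ ¬ D.hl a ∧ a' < ⊤ ∧ D.hl a' ∧
      MF (D.St a) (gW (Gw [.nm φ, .ix r])) ∧
      ∀ idx, OkI D idx → Low a idx → MF (D.St a') (Gb [.nm φ, .re (pt D r idx)]) := by
    intro φ r
    have hg : MF Set.univ (gW (Gw [.nm φ, .ix r])) :=
      mf_iff.2 fun n => @meas_gW _ (Flt Set.univ) _ (mf_iff.1 (hGw _)) n
    obtain ⟨j, hj, hjg⟩ := st2 _ hg
    obtain ⟨a, ha1, ha2, ha3⟩ := hD.tcof j hj
    have hst : ∀ x : {idx : Ix J // OkI D idx ∧ Low a idx}, ∃ i < ⊤,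
        MF (D.St i) (Gb [.nm φ, .re (pt D r x.1)]) := fun x => st2 _ (hGb _)
    choose s hs1 hs2 using hst
    obtain ⟨y, hy1, hy2⟩ := hD.big.reg (Set.range s)
      (Cardinal.mk_range_le.trans (card_low D hD.big a ha2)) (by
        rintro _ ⟨x, rfl⟩
        exact hs1 x)
    obtain ⟨a', hb1, hb2, hb3⟩ := hD.hcof y hy1
    refine ⟨a, a', ha2, ha3, hb2, hb3, st3 j a ha1.le _ hjg, fun idx hi1 hi2 => ?_⟩
    exact st3 _ a' ((hy2 _ ⟨⟨idx, hi1, hi2⟩, rfl⟩).le.trans hb1.le) _ (hs2 ⟨idx, hi1, hi2⟩)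
  choose A A' c1 c2 c3 c4 c5 c6 using ch
  let μ : Nm P → ℝ → Set P → ℕ → ℕ := fun φ r G n =>
    (Gw [.nm φ, .ix r] G (Nat.pair n (ind (D.h (A' φ r) G) (gW (Gw [.nm φ, .ix r]) G)
      (D.t r (A φ r) G) n))).unpair.1
  have hμ : ∀ φ r, MF Set.univ (μ φ r) := by
    intro φ r
    rw [mf_iff]
    intro n
    let _ : MeasurableSpace (Set P) := Flt Set.univ
    have m1 : Measurable fun G => ind (D.h (A' φ r) G) (gW (Gw [.nm φ, .ix r]) G)
        (D.t r (A φ r) G) n :=
      meas_ind (mf_iff.1 (hD.h_ms _ (c3 φ r) (c4 φ r)))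
        (fun n => meas_gW (mf_iff.1 (hGw _)) n)
        (fun k => hD.t_ms r _ (c1 φ r) (c2 φ r) k) n
    exact meas_comp (w := fun G k => (Gw [.nm φ, .ix r] G (Nat.pair n k)).unpair.1)
      (fun k => (measurable_from_nat (f := fun m : ℕ => m.unpair.1)).comp
        (mf_iff.1 (hGw _) (Nat.pair n k))) m1
  -- worlds
  refine ((h5 P J D hD).and (evb.and (evw.and ((h3 P J hD.ccc).and
    ((ev_fun (fun l : List (Obj P J) => match l with
      | [.nm φ, .ix r] => Obj.fn (μ φ r)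
      | _ => Obj.lv ⊤)).and
    ((h1 P J (fun l => match l with
      | [.nm φ, .ix r] => {G | ∃ᶠ i in atTop, Pd (gW (Gw [.nm φ, .ix r]) G) (D.t r (A φ r) G) i}
      | _ => Set.univ)).and
    ((h1 P J (fun l => match l with
      | [.nm φ, .ix r, .lv α] => {G | ∀ᶠ k in atTop, k ∈ D.t r α G → k ∈ D.t r (A φ r) G}
      | _ => Set.univ)).and
    (h1 P J (fun l => match l with
      | [.nm φ, .ix r, .re f] => {G | ∀ᶠ n in atTop, Gb [.nm φ, .re f] G n ≤ D.h (A' φ r) G n}
      | _ => Set.univ))))))))).mono ?_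
  rintro M G ⟨⟨e1, -, -⟩, e2, e3, ⟨e4, -⟩, e5, e6, e7, e8⟩ r hr F hF hcont hlim
  obtain ⟨φ, hφ, hval⟩ := hF
  have hφ' : Obj.nm φ ∈ M := hφ
  have w5 : Obj.fn (μ φ r) ∈ M := e5 [.nm φ, .ix r] (by
    intro x hx
    simp only [List.mem_cons, List.not_mem_nil, or_false] at hx
    rcases hx with rfl | rfl
    · exact hφ'
    · exact hr)
  have w6 : ∃ᶠ i in atTop, Pd (gW (Gw [.nm φ, .ix r]) G) (D.t r (A φ r) G) i :=
    e6 [.nm φ, .ix r] (by
      intro x hx
      simp only [List.mem_cons, List.not_mem_nil, or_false] at hx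
      rcases hx with rfl | rfl
      · exact hφ'
      · exact hr) (hD.unb r _ (c1 φ r) (c2 φ r) _ (c5 φ r))
  have w7 : ∀ α, Obj.lv α ∈ M → A φ r < α → α < ⊤ → ¬ D.hl α →
      ∀ᶠ k in atTop, k ∈ D.t r α G → k ∈ D.t r (A φ r) G := by
    intro α hα hlt htop hnl
    exact e7 [.nm φ, .ix r, .lv α] (by
      intro x hx
      simp only [List.mem_cons, List.not_mem_nil, or_false] at hx
      rcases hx with rfl | rfl | rfl
      · exact hφ'
      · exact hr
      · exact hα) (hD.tower r _ α hlt htop (c2 φ r) hnl)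
  have w8 : ∀ idx, OkI D idx → InM M idx → Low (A φ r) idx →
      ∀ᶠ n in atTop, Gb [.nm φ, .re (pt D r idx)] G n ≤ D.h (A' φ r) G n := by
    intro idx hi1 hi2 hi3
    exact e8 [.nm φ, .ix r, .re (pt D r idx)] (by
      intro x hx
      simp only [List.mem_cons, List.not_mem_nil, or_false] at hx
      rcases hx with rfl | rfl | rfl
      · exact hφ'
      · exact hr
      · exact (e1 r hr).2 idx hi1 hi2) (hD.dom _ (c3 φ r) (c4 φ r) _ (c6 φ r idx hi1 hi3))
  obtain ⟨v1, v2⟩ := e4 (μ φ r) w5 (hμ φ r)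
  refine ⟨μ φ r G, ⟨nmF (μ φ r), v1, v2⟩, ?_⟩
  have hW := e3 φ hφ r hr F hval hcont hlim
  have hspec := ind_spec (h := D.h (A' φ r) G) w6
  rintro x ⟨idx, hi1, hi2, rfl⟩
  -- the bound
  have hbd : ∀ᶠ n in atTop, |F n (μ φ r G n) (pt D r idx G)| ≤ 1 / ((n : ℝ) + 1) := by
    by_cases hlow : Low (A φ r) idx
    · refine (w8 idx hi1 hi2 hlow).mono fun n hn => ?_
      refine e2 φ hφ (pt D r idx) ((e1 r hr).2 idx hi1 hi2) (h9 P J D hD r idx hi1).2.1 _ F hval
        ⟨idx, hi1, hi2, rfl⟩ (fun n => hlim n _ ⟨idx, hi1, hi2, rfl⟩) n _ ?_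
      exact hn.trans (((le_max_right _ _).trans (hspec n).1).trans (hW n _).1)
    · rcases idx with x | d
      · have hle : A φ r ≤ x.1 := not_lt.1 hlow
        have ht : ∀ᶠ k in atTop, k ∈ D.t r x.1 G → k ∈ D.t r (A φ r) G := by
          rcases hle.eq_or_lt with h | h
          · rw [h]
            exact Filter.Eventually.of_forall fun k hk => hk
          · exact w7 x.1 hi2.1 h hi1.2.1 hi1.2.2.1
        obtain ⟨k0, hk0⟩ := eventually_atTop.1 ht
        refine eventually_atTop.2 ⟨k0, fun n hn => ?_⟩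
        refine (hW n _).2 (.inl x) hi1 hi2 ?_
        obtain ⟨s1, s2⟩ := hspec n
        have hni : n ≤ ind (D.h (A' φ r) G) (gW (Gw [.nm φ, .ix r]) G) (D.t r (A φ r) G) n :=
          (le_max_left _ _).trans s1
        rintro y ⟨hy1, hy2, hy3⟩ hy4 hy5
        have hy6 : y.2 < ind (D.h (A' φ r) G) (gW (Gw [.nm φ, .ix r]) G) (D.t r (A φ r) G) n := by
          by_contra hcon
          have hcon' := not_lt.1 hcon
          exact s2 y.2 hcon' (hy5.trans_le (le_gW _ _ hni))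
            (hk0 y.2 (hn.trans (hni.trans hcon')) hy3)
        exact ⟨hy1.trans_lt hy6, hy6⟩
      · exact absurd trivial hlow
  rw [Metric.tendsto_atTop]
  intro ε hε
  obtain ⟨n0, hn0⟩ := eventually_atTop.1 hbd
  obtain ⟨n1, hn1⟩ := exists_nat_one_div_lt hε
  refine ⟨max n0 n1, fun n hn => ?_⟩
  rw [Real.dist_eq, sub_zero]
  refine (hn0 n ((le_max_left _ _).trans hn)).trans_lt (lt_of_le_of_lt ?_ hn1)
  have h5 : (n1 : ℝ) ≤ n := by exact_mod_cast (le_max_right _ _).trans hn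
  have h6 : (0:ℝ) ≤ n1 := Nat.cast_nonneg _
  exact one_div_le_one_div_of_le (by linarith) (by linarith)

end Pool.Agent.CW
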