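import Pool.Agent.Lib.MP_e2257e_gt.C.Stmts

/-!
# MP_e2257e_gt : every name appears at some stage (C3)
-/

set_option autoImplicit false

open Filter Topology

namespace Pool.Agent.CW

namespace Stage_

open Pool.Agent.CR (BigIx)

section
variable {P : Type} [Preorder P]

omit [Preorder P] in
private theorem Flt_mono {S T : Set P} (h : S ⊆ T) : Flt S ≤ Flt T := by
  apply MeasurableSpace.generateFrom_mono
  rintro A ⟨p, hp, rfl⟩
  exact ⟨p, h hp, rfl⟩

omit [Preorder P] in
private theorem MS_mono {S T : Set P} (h : S ⊆ T) {A : Set (Set P)} (hA : MS S A) : MS T A :=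
  Flt_mono h A hA

omit [Preorder P] in
private theorem MF_mono {S T : Set P} (h : S ⊆ T) {g : Set P → ℕ → ℕ} (hg : MF S g) : MF T g :=
  fun n k => MS_mono h (hg n k)

omit [Preorder P] in
private theorem MS_ctb (A : Set (Set P)) (hA : MS Set.univ A) :
    ∃ S : Set P, S.Countable ∧ MS S A := by
  unfold MS at hA
  induction A, hA using MeasurableSpace.generateFrom_induction with
  | hC t ht _ =>
    obtain ⟨p, _, rfl⟩ := ht
    exact ⟨{p}, Set.countable_singleton p,
      MeasurableSpace.measurableSet_generateFrom ⟨p, rfl, rfl⟩⟩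
  | empty => exact ⟨∅, Set.countable_empty, @MeasurableSet.empty _ (Flt ∅)⟩
  | compl t _ ih =>
    obtain ⟨S, h1, h2⟩ := ih
    exact ⟨S, h1, @MeasurableSet.compl _ _ (Flt S) h2⟩
  | iUnion s _ ih =>
    choose S h1 h2 using ih
    refine ⟨⋃ n, S n, Set.countable_iUnion h1, ?_⟩
    exact @MeasurableSet.iUnion _ _ (Flt (⋃ n, S n)) _ _
      fun n => MS_mono (Set.subset_iUnion S n) (h2 n)

variable {J : Type} [LinearOrder J] [OrderTop J]

private theorem stage_ctb {D : Dat P J} (hD : Sys D) {S : Set P} (hS : S.Countable) :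
    ∃ j < ⊤, S ⊆ D.St j := by
  choose j h1 h2 using hD.cov
  obtain ⟨y, hy, hy2⟩ := hD.big.reg (j '' S) (((Cardinal.mk_le_aleph0_iff.2
    (hS.image j).to_subtype)).trans Cardinal.aleph0_le_continuum) (by
      rintro x ⟨p, _, rfl⟩
      exact h1 p)
  exact ⟨y, hy, fun p hp => hD.mono _ _ (hy2 _ ⟨p, hp, rfl⟩).le (h2 p)⟩

end

end Stage_

open Stage_ in
theorem stage_proof : S_stage := by
  intro P J _ _ _ D hD
  refine ⟨fun A hA => ?_, fun g hg => ?_, fun i j hij g hg => MF_mono (hD.mono i j hij) hg⟩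
  · obtain ⟨S, h1, h2⟩ := MS_ctb A hA
    obtain ⟨j, hj, h3⟩ := stage_ctb hD h1
    exact ⟨j, hj, MS_mono h3 h2⟩
  · choose S h1 h2 using fun n k => MS_ctb _ (hg n k)
    obtain ⟨j, hj, h3⟩ := stage_ctb hD (S := ⋃ n, ⋃ k, S n k)
      (Set.countable_iUnion fun n => Set.countable_iUnion fun k => h1 n k)
    refine ⟨j, hj, fun n k => MS_mono (Set.Subset.trans ?_ h3) (h2 n k)⟩
    exact Set.Subset.trans (Set.subset_iUnion (fun k => S n k) k)
      (Set.subset_iUnion (fun n => ⋃ k, S n k) n)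

end Pool.Agent.CW
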