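import Pool.Agent.Lib.MP_e2257e_gt.C.Defs
import Pool.Agent.Lib.MP_e2257e_gt.B.Stmts

/-!
# MP_e2257e_gt : the model (statements of the pieces of block C)

Every `S_...` is a proposition; a piece `X` consists of a theorem `X_proof : ... → S_X` in its own
file `Pool/Agent/Lib/MP_e2257e_gt/C/X.lean`, which imports this file; other pieces of the blocks B
and C may be used as hypotheses (` (h : S_ms)` etc.).
-/

set_option autoImplicit false

open Filter Topology

namespace Pool.Agent.CW

open Pool.Agent.CR (V Fml Nm Memf Eqf Fr natN pairN val Mod nat rat cut Hull GenF RN BigIx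
  IsTransModelZFC)

/-- (C1) The coding of subsets of `ℕ × ℕ` by irrational numbers.
Proof: enumerate `ℕ × ℕ` by `Nat.unpair`; `emb A = ∑' i, (if Nat.unpair i ∈ A then 2 else 1) / (i + 3)!`
(` (i + 3).factorial`).  Irrational: if `emb A = a / q` with `q ≥ 1`, multiply by ` (n + 2)!` for an
`n ≥ q`: the terms `i < n` become integers and the rest is
`∑_{i ≥ n} (1 or 2) (n + 2)! / (i + 3)!`, positive and at most `2 ∑_{j ≥ 1} (n + 3)^(-j) = 2/(n + 2) < 1`.
`inj`: if the first difference of the codes is at `i0` then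
`|emb A - emb B| ≥ 1/(i0 + 3)! - ∑_{i > i0} 1/(i + 3)! ≥ (1/(i0 + 3)!) (1 - 1/(i0 + 3)) > 0`, and there are only
finitely many possible `i0` (`i0 < Nat.pair`-bound for the square `n × n`).  `cts`: tails of the series
tend to `0`. -/
def S_emb : Prop := ∃ emb : Set (ℕ × ℕ) → ℝ, EmbP emb

/-- (C2) Measurability of the points.
Proof: (1) from `h_ms`, `t_ms` (`y.2 < h y.1` is a countable union of the sets `{h y.1 = k}`).
(2) `{G | emb (A G) < a}`: by `cts` this is the union over all `n` and all sets `s ⊆ n × n`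
such that `emb B < a` for all `B` with `B ∩ (n × n) = s`, of `{G | A G ∩ (n × n) = s}`.
(3) from (1). -/
def S_pt : Prop := ∀ (P J : Type) [Preorder P] [LinearOrder J] [OrderTop J] (D : Dat P J),
  Sys D → ∀ (r : ℝ) (i : Ix J), OkI D i →
    (∀ y, MS Set.univ {G | y ∈ AAt D r i G}) ∧ MR Set.univ (pt D r i) ∧
      ∀ n k, MR Set.univ (ch D r i n k)

/-- (C3) Everything appears at some stage.
Proof: (1) the sets `A` which are in `Flt S0` for some countable `S0` form a sigma-algebra containing the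
generators (`MeasurableSpace.generateFrom_induction`); for countable `S0` choose `j p < ⊤` with
`p ∈ D.St (j p)`, bound the `j p` by `j < ⊤` (`big.reg`, countable sets have size at most the
continuum); `Flt S0 ≤ Flt (D.St j)` by `mono`.  (2) countably many sets; (3) `Flt` is monotone. -/
def S_stage : Prop := ∀ (P J : Type) [Preorder P] [LinearOrder J] [OrderTop J] (D : Dat P J),
  Sys D → (∀ A, MS Set.univ A → ∃ j < ⊤, MS (D.St j) A) ∧
    (∀ g, MF Set.univ g → ∃ j < ⊤, MF (D.St j) g) ∧
    ∀ i j, i ≤ j → ∀ g, MF (D.St i) g → MF (D.St j) g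

/-- (C4) The values of the names `EN` and `XN` in rich worlds.
Proof: `mem_val`.  Left to right: if the name `fn b` is in `HM M` and the condition is in `G` then by `ev_rel`
(parameter `.nm (fn b)`) there are `r` (and levels `α`, `β`) with `Obj.ix r ∈ M`, ... and
`fn b = nmR fun _ => r` etc. (do it one after the other: `∃ x, ∃ r i, x = .ix r ∧ OkI D i ∧ τ = opN ..`,
then with parameters `[.nm τ, .ix r]` the first level, and so on; for finite sets `d` use `Ev.all` over
`Finset (ℕ × ℕ)`).  Right to left: `ev_fun` puts `.re (fun _ => r)`, `.re (pt D r i)` and the names into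
`M`; the condition can be any element of `G` (`ev_ne`).  Values of `nmR` from `S_real` (1), of `opN`
from `ev_opN`. -/
def S_EX : Prop := ∀ (P J : Type) [Preorder P] [LinearOrder J] [OrderTop J] (D : Dat P J), Sys D →
  Ev (fun (M : Set (Obj P J)) G =>
    (∀ r, Obj.ix r ∈ M → Obj.re (fun _ => r) ∈ M ∧ ∀ i, OkI D i → InM M i →
      Obj.re (pt D r i) ∈ M) ∧
    (EN P ∈ HM M ∧ ∀ z, z ∈ val (HM M) G (EN P) ↔ ∃ r, Obj.ix r ∈ M ∧ z = cut r) ∧
    (XN D ∈ HM M ∧ ∀ z, z ∈ val (HM M) G (XN D) ↔
      ∃ r i, Obj.ix r ∈ M ∧ InM M i ∧ OkI D i ∧ z = ZFSet.pair (cut r) (cut (pt D r i G))))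

/-- (C5) The double sequence of functions on the union.
Proof: as (C4); `F n k x` = 1 if ` (n, n + k)` is in the set coded by `x` (`D.emb` is injective by
`EmbP.inj`), 0 otherwise; `F n k (pt D r i G) = ch D r i n k G`. -/
def S_F : Prop := ∀ (P J : Type) [Preorder P] [LinearOrder J] [OrderTop J] (D : Dat P J), Sys D →
  ∃ F : ℕ → ℕ → ℝ → ℝ, (∀ n k A, (n, n + k) ∈ A → F n k (D.emb A) = 1) ∧
    (∀ n k A, (n, n + k) ∉ A → F n k (D.emb A) = 0) ∧
    Ev (fun (M : Set (Obj P J)) G => FN D ∈ HM M ∧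
      val (HM M) G (FN D) = famC {x | ∃ r, Obj.ix r ∈ M ∧ x ∈ XM D M G r} F)

/-- (C6) `E` has size less than `𝔟`.
Proof: let `Φ = val φ`.  Let `R [.nm φ, .ix r] n k p` mean: there is `g` with `MF Set.univ g`,
`Memf (opN (nmR fun _ => r) (nmF g)) φ p` and `Frc {G | g G n = k} p`; `Gd` from `S_read`.  For every
`r : ℝ` `Gd [.nm φ, .ix r]` has a stage `j r < ⊤` (`S_stage`); by `big.reg` (there are continuum many
`r`) and `hcof` there is a Hechler level `β = β φ < ⊤` above all of them; the bound is `D.h β G`; it is in the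
world by `ev_fun` and `S_seq` (1) (`h_ms`).  In a world, for `e = cut r`, `Obj.ix r ∈ M`:
`ZFSet.pair e (seqN (F e)) ∈ val φ`, so `seqN (F e) ∈ NM M G` (transitivity, `ev_zfc` or `Mod_trans`),
`F e = g G` for some `g` in `M` (`S_seq` (2)), and `ev_mem`, `S_ms` show that the question `n` has the
answer `F e n`; conversely if `R ... n k p`, `p ∈ G`, then (choose `g` in `M` by `ev_rel`)
`F e n = k`.  So `Gd .. G n = F e n`.  `dom` holds for `G` by `S_ae`. -/
def S_bdd : Prop := ∀ (P J : Type) [Preorder P] [LinearOrder J] [OrderTop J] (D : Dat P J),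
  Sys D → Ev (fun (M : Set (Obj P J)) G => LtB (NM M G) (val (HM M) G (EN P)))

/-- (C7) Truth for `VB`.
Proof: fix `n, k` (`Ev.all`).  Left to right: the set of all `p` with `VB φ n k x p`, or with an `f`,
`MR Set.univ f`, such that `Memf (opN ..) φ p` and `Frc {G | |f G| ≤ 1/(n+1)}ᶜ p`, is dense
(`S_decN` (3)); use `ev_dense`; in the second case find `f` in `M` by `ev_rel`, then
`ZFSet.pair .. ∈ famC X F` gives `F n k (x G) = f G` (`ev_mem`, `ev_opN`, `S_real`, `cut` injective), and
`|f G| > 1/(n+1)` by `S_ms` (2).  Right to left: the value `F n k (x G)` is `f G` for some `f` in `M`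
(`S_real` (2), transitivity of `NM M G`), `Memf (..) φ q` for some `q ∈ G` (`ev_mem`); take a common
extension in `G` and use `S_ms` (2). -/
def S_vb : Prop := ∀ (P J : Type) [Preorder P], CCC P →
  Ev (fun (M : Set (Obj P J)) G => ∀ φ ∈ HM M, ∀ x, Obj.re x ∈ M → MR Set.univ x →
    ∀ (X : Set ℝ) (F : ℕ → ℕ → ℝ → ℝ), val (HM M) G φ = famC X F → x G ∈ X → ∀ n k,
      (|F n k (x G)| ≤ 1 / ((n : ℝ) + 1) ↔ ∃ p ∈ G, VB φ n k x p))

/-- (C8) Names of the moduli of convergence.
Proof: `S_read` with `R [.nm φ, .re x] n k p := ∀ m ≥ k, VB φ n m x p`.  World: there is `k` with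
`|F n m (x G)| ≤ 1/(n+1)` for all `m ≥ k`; the set of all `p` such that `VB φ n m x p` for all `m ≥ k` or
there is `m ≥ k` with `¬ VB φ n m x q` for all `q ≤ p` is dense (if `VB φ n m x` holds densely below `p`
then it holds at `p`, by `S_loc`); use `ev_dense` (for all `k`, `n`) and `S_vb`. -/
def S_bread : Prop := ∀ (P J : Type) [Preorder P], CCC P →
  ∃ Gb : List (Obj P J) → Set P → ℕ → ℕ, (∀ l, MF Set.univ (Gb l)) ∧
    Ev (fun (M : Set (Obj P J)) G => ∀ φ ∈ HM M, ∀ x, Obj.re x ∈ M → MR Set.univ x →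
      ∀ (X : Set ℝ) (F : ℕ → ℕ → ℝ → ℝ), val (HM M) G φ = famC X F → x G ∈ X →
        (∀ n, Tendsto (fun k => F n k (x G)) atTop (𝓝 0)) →
        ∀ n k, Gb [.nm φ, .re x] G n ≤ k → |F n k (x G)| ≤ 1 / ((n : ℝ) + 1))

/-- (C9) Names of the moduli of continuity.
Proof: `S_read` with `R [.nm φ, .ix r] (Nat.pair n i) (Nat.pair m b) p`: `i ≤ m` and for all `idx` with
`OkI D idx` and all `q ≤ p` with `Frc {G | Miss (AAt D r idx G) i b} q` we have
`VB φ n m (pt D r idx) q`.  World: (1) there are `m ≥ i` and `b ≥ i` such that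
`|F n m (pt D r idx G)| ≤ 1/(n+1)` for all `idx` in `M` with `Miss (AAt D r idx G) i b`: choose `m`
such that `|F n m (emb d)| < 1/(n+1)` for all `d ⊆ i × i` (finitely many points of the row, `.inr d`),
then by continuity on the row and `EmbP.inj`... (if `Miss A i b` then `A ∩ (b × b) = d ⊆ i × i`, so `emb A` is
close to `emb d` by `EmbP.cts` if `b` is large).  (2) the set of all `p` such that
`R .. (Nat.pair n i) (Nat.pair m b) p` or there is `idx`, `OkI D idx`, with
`Frc {G | Miss (AAt D r idx G) i b} p` and `¬ VB φ n m (pt D r idx) q` for all `q ≤ p` is dense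
(`VB` is determined locally, `S_loc`); use `ev_dense`; in the second case `idx` can be found in `M` by
`ev_rel`, `Miss` holds by `S_ms` (2), and `S_vb` gives a contradiction.  Conclusion: if `R .. p`, `p ∈ G`,
and `Miss (AAt D r idx G) i b` (measurable, `S_pt`, so forced by some element of `G`, `S_ms`), then
`VB` holds for a common extension, and `S_vb` gives the bound. -/
def S_wread : Prop := ∀ (P J : Type) [Preorder P] [LinearOrder J] [OrderTop J] (D : Dat P J),
  Sys D → ∃ Gw : List (Obj P J) → Set P → ℕ → ℕ, (∀ l, MF Set.univ (Gw l)) ∧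
    Ev (fun (M : Set (Obj P J)) G => ∀ φ ∈ HM M, ∀ r, Obj.ix r ∈ M → ∀ F : ℕ → ℕ → ℝ → ℝ,
      val (HM M) G φ = famC (XM D M G r) F → (∀ n k, ContinuousOn (F n k) (XM D M G r)) →
      (∀ n, ∀ x ∈ XM D M G r, Tendsto (fun k => F n k x) atTop (𝓝 0)) → ∀ n i,
        i ≤ (Gw [.nm φ, .ix r] G (Nat.pair n i)).unpair.1 ∧
        ∀ idx, OkI D idx → InM M idx →
          Miss (AAt D r idx G) i (Gw [.nm φ, .ix r] G (Nat.pair n i)).unpair.2 →
          |F n (Gw [.nm φ, .ix r] G (Nat.pair n i)).unpair.1 (pt D r idx G)| ≤ 1 / ((n : ℝ) + 1))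

/-- (C10) Every row is selective.
Proof: let `W = Gw [.nm φ, .ix r]`, `m n i = (W G (Nat.pair n i)).unpair.1`,
`b n i = (W G (Nat.pair n i)).unpair.2`, `g G i = max_{n ≤ i} b n i`.  Ground model choices, depending
only on the list `[.nm φ, .ix r]`: a tower level `a < ⊤` with `MF (D.St a) g` (`S_stage`, `tcof`); a Hechler
level `a' < ⊤` with `MF (D.St a') (Gb [.nm φ, .re (pt D r idx)])` for all `idx = .inl (α, β)` with
`α < a`, `OkI D idx`, and all `idx = .inr d` (`big.small`: at most continuum many; `big.reg`, `hcof`).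
Let `i G n` be the least `i ≥ max n (D.h a' G n)` such that `k ∉ D.t r a G` for all `k` with
`i ≤ k < g G i` (0 if there is none) and `μ G n = m n (i G n)`; `MF Set.univ μ`; `.fn μ ∈ M` by `ev_fun`, so
`seqN (μ G) ∈ NM M G` (`S_seq`).  By `unb` and `S_ae` `i G n` exists in a world.  Claim:
`|F n (μ G n) (pt D r idx G)| ≤ 1/(n+1)` for all large `n`, for every `idx` in `M` with `OkI D idx`.
(i) `idx = .inl (α, β)`, `a ≤ α`: by `tower` (`S_ae`) there is `k0` such that `k ∈ t r α` implies
`k ∈ t r a` for `k ≥ k0`; for `n ≥ k0` and `i = i G n ≥ n`, `b n i ≤ g G i`, so `D.t r α G` has no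
elements in `[i, b n i)`, so `Miss (AAt D r idx G) i (b n i)` (`y.1 ≤ y.2`); use `S_wread`.
(ii) `α < a` or `idx = .inr d`: by `dom` (`S_ae`) `Gb .. G n ≤ D.h a' G n ≤ i G n ≤ μ G n` for large `n`;
use `S_bread` (`.re (pt D r idx) ∈ M` by `S_EX`). -/
def S_sel : Prop := ∀ (P J : Type) [Preorder P] [LinearOrder J] [OrderTop J] (D : Dat P J), Sys D →
  Ev (fun (M : Set (Obj P J)) G => ∀ r, Obj.ix r ∈ M → Selective (NM M G) (XM D M G r))

/-- (C11) The union is not selective.
Proof: the double sequence is `F` of `S_F`; `famC .. F = val (FN D) ∈ NM M G`.  Continuity on the union: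
`EmbP.inj` (locally constant).  Pointwise null: for fixed `n` and a point `emb A` of the union only
finitely many `k` have ` (n, n + k) ∈ A` (`A` is finite or `n + k < D.h β G n`).  Assume `seqC m ∈ NM M G`
and `F n (m n) → 0` pointwise.  `m = g G` with `.fn g ∈ M`, `MF Set.univ g` (`S_seq` (2)).  Ground model
choices depending only on `g`: `A G = {n + g G n | n}` is measurable and infinite, `hit` gives a countable
`E`; choose `r ∉ E`; a Hechler level `β < ⊤` with `MF (D.St β) (fun G n => n + g G n + 1)`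
(`S_stage`, `hcof`), a tower level `α`, `β < α < ⊤` (`tcof`); all are in `M` by `ev_rel`/`ev_fun`.  By
`S_ae`: `A G ∩ D.t r α G` is infinite, and `n + m n + 1 ≤ D.h β G n` for large `n`.  So for
infinitely many `n`: `n + m n ∈ D.t r α G`, `n + m n < D.h β G n`, i.e.
` (n, n + m n) ∈ AAt D r (.inl (α, β)) G` and `F n (m n) (pt ..) = 1`. -/
def S_nsel : Prop := ∀ (P J : Type) [Preorder P] [LinearOrder J] [OrderTop J] (D : Dat P J),
  Sys D → Ev (fun (M : Set (Obj P J)) G =>
    ¬ Selective (NM M G) {x | ∃ r, Obj.ix r ∈ M ∧ x ∈ XM D M G r})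

/-- (C12) The main statement from the interface. -/
def S_fin : Prop := ∀ (P J : Type) [Preorder P] [LinearOrder J] [OrderTop J] [Nonempty P]
  (D : Dat P J), Sys D → MainStatement

end Pool.Agent.CW
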