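import Pool.Agent.Lib.MP_e2257e_gt.C.Stmts
import Pool.Agent.Lib.MP_e2257e_gt.B.Mr

/-!
# MP_e2257e_gt : the truth lemma for `VB`
-/

set_option autoImplicit false

open Filter Topology

namespace Pool.Agent.CW

open Pool.Agent.CR (V Fml Nm Memf Eqf Fr natN pairN val Mod nat rat cut Hull GenF RN mem_val
  Memf_mono Mod_trans)

namespace Vb_

private theorem mem_of_lt {m n : ℕ} (h : m < n) : nat m ∈ nat n := by
  induction n with
  | zero => exact absurd h (Nat.not_lt_zero _)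
  | succ n ih =>
    change nat m ∈ insert (nat n) (nat n)
    rw [ZFSet.mem_insert_iff]
    rcases Nat.lt_succ_iff_lt_or_eq.1 h with h | h
    · exact Or.inr (ih h)
    · exact Or.inl (by rw [h])

private theorem nat_inj {m n : ℕ} (h : nat m = nat n) : m = n := by
  rcases lt_trichotomy m n with h1 | h1 | h1
  · have h2 := mem_of_lt h1
    rw [h] at h2
    exact absurd h2 (ZFSet.mem_irrefl _)
  · exact h1
  · have h2 := mem_of_lt h1
    rw [h] at h2
    exact absurd h2 (ZFSet.mem_irrefl _)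

private theorem nat_mem_cut {x : ℝ} {n : ℕ} : nat n ∈ cut x ↔ rat n < x := by
  rw [cut, ZFSet.mem_range]
  constructor
  · rintro ⟨⟨m, hm⟩, h⟩
    rw [← nat_inj h]
    exact hm
  · intro h
    exact ⟨⟨n, h⟩, rfl⟩

private theorem ex_rat (q : ℚ) : ∃ n, rat n = q := by
  refine ⟨Nat.pair (Nat.pair q.num.toNat (-q.num).toNat) (q.den - 1), ?_⟩
  unfold rat
  simp only [Nat.unpair_pair]
  have h1 : ((q.den - 1 : ℕ) : ℝ) + 1 = q.den := by
    have : q.den - 1 + 1 = q.den := Nat.succ_pred_eq_of_pos q.den_pos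
    exact_mod_cast this
  have h2 : ((q.num.toNat : ℕ) : ℝ) - ((-q.num).toNat : ℕ) = q.num := by
    have : ((q.num.toNat : ℕ) : ℤ) - ((-q.num).toNat : ℕ) = q.num := by omega
    exact_mod_cast this
  rw [h1, h2]
  conv_rhs => rw [← Rat.num_div_den q]
  push_cast
  rfl

private theorem cut_inj {x y : ℝ} (h : cut x = cut y) : x = y := by
  have key : ∀ {x y : ℝ}, cut x = cut y → ¬ x < y := by
    intro x y h hlt
    obtain ⟨q, h1, h2⟩ := exists_rat_btwn hlt
    obtain ⟨n, hn⟩ := ex_rat q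
    have h3 : nat n ∈ cut y := nat_mem_cut.2 (by rw [hn]; exact h2)
    rw [← h, nat_mem_cut, hn] at h3
    exact absurd h3 (not_lt.2 h1.le)
  rcases lt_trichotomy x y with h1 | h1 | h1
  · exact absurd h1 (key h)
  · exact h1
  · exact absurd h1 (key h.symm)

/-- elements of `famC` -/
theorem mem_famC {X : Set ℝ} {F : ℕ → ℕ → ℝ → ℝ} {n k : ℕ} {x y : ℝ} :
    ZFSet.pair (ZFSet.pair (nat n) (nat k)) (ZFSet.pair (cut x) (cut y)) ∈ famC X F ↔
      x ∈ X ∧ y = F n k x := by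
  rw [famC, ZFSet.mem_range]
  constructor
  · rintro ⟨⟨⟨n', k', x'⟩, hx⟩, h⟩
    obtain ⟨h1, h2⟩ := ZFSet.pair_injective h
    obtain ⟨h3, h4⟩ := ZFSet.pair_injective h1
    obtain ⟨h5, h6⟩ := ZFSet.pair_injective h2
    have e1 : n' = n := nat_inj h3
    have e2 : k' = k := nat_inj h4
    have e3 : x' = x := cut_inj h5
    subst e1 e2 e3
    exact ⟨hx, (cut_inj h6).symm⟩
  · rintro ⟨hx, rfl⟩
    exact ⟨⟨(n, k, x), hx⟩, rfl⟩

/-- the second components of pairs of a transitive class -/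
theorem pair_snd {P : Type} {H : Set (Nm P)} {G : Set P} {a b : V}
    (h : ZFSet.pair a b ∈ Mod H G) : b ∈ Mod H G := by
  have h1 : ({a, b} : V) ∈ Mod H G := by
    refine Mod_trans _ h _ ?_
    rw [ZFSet.pair, ZFSet.mem_pair]
    exact Or.inr rfl
  exact Mod_trans _ h1 _ (ZFSet.mem_pair.2 (Or.inr rfl))

variable {P J : Type} [Preorder P]

/-- the name of the element of the graph -/
def nme (n k : ℕ) (x f : Set P → ℝ) : Nm P :=
  opN (opN (natN P n) (natN P k)) (opN (nmR x) (nmR f))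

/-- the values of these names -/
theorem ev_nme (h4 : S_real) (P J : Type) [Preorder P] (hc : CCC P) :
    Ev (fun (M : Set (Obj P J)) G => ∀ n k x f, Obj.re x ∈ M → Obj.re f ∈ M →
      MR Set.univ x → MR Set.univ f → nme n k x f ∈ HM M ∧ val (HM M) G (nme n k x f) =
        ZFSet.pair (ZFSet.pair (nat n) (nat k)) (ZFSet.pair (cut (x G)) (cut (f G)))) := by
  refine (ev_natN.and (ev_opN.and (h4 P J hc))).mono ?_
  rintro M G ⟨h1, h2, h3, _⟩ n k x f hx hf mx mf
  obtain ⟨a1, a2⟩ := h3 x hx mx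
  obtain ⟨b1, b2⟩ := h3 f hf mf
  obtain ⟨c1, c2⟩ := h2 _ (h1 n).1 _ (h1 k).1
  obtain ⟨d1, d2⟩ := h2 _ a1 _ b1
  obtain ⟨e1, e2⟩ := h2 _ c1 _ d1
  refine ⟨e1, ?_⟩
  rw [nme, e2, c2, d2, a2, b2, (h1 n).2, (h1 k).2]

/-- the second alternative of the dense sets -/
def Alt (φ : Nm P) (n k : ℕ) (x f : Set P → ℝ) (p : P) : Prop :=
  MR Set.univ f ∧ Memf (nme n k x f) φ p ∧ Frc {G | |f G| ≤ 1 / ((n : ℝ) + 1)}ᶜ p

theorem ms_abs {f : Set P → ℝ} (hf : MR Set.univ f) (c : ℝ) :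
    MS Set.univ {G : Set P | |f G| ≤ c} := by
  have h1 := (mr_proof P Set.univ f).1 hf
  let _ : MeasurableSpace (Set P) := Flt (Set.univ : Set P)
  exact measurableSet_le (Measurable.abs h1) measurable_const

theorem dense (h1 : S_decN) (hc : CCC P) (φ : Nm P) (n k : ℕ) (x : Set P → ℝ) (p : P) :
    ∃ q ≤ p, VB φ n k x q ∨ ∃ f, Alt φ n k x f q := by
  by_cases h : VB φ n k x p
  · exact ⟨p, le_rfl, Or.inl h⟩
  · unfold VB at h
    push Not at h
    obtain ⟨f, hf, q, hq, hm, hn⟩ := h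
    obtain ⟨r, hr, hr'⟩ := (h1 P hc).2.2.1 _ (ms_abs hf _) q hn
    exact ⟨r, hr.trans hq, Or.inr ⟨f, hf, Memf_mono hm hr, hr'⟩⟩

end Vb_

set_option linter.unusedVariables false in
theorem vb_proof (h1 : S_decN) (h2 : S_ae) (h3 : S_ms) (h4 : S_real) : S_vb := by
  intro P J _ hc
  have key : Ev (fun (M : Set (Obj P J)) G => ∀ y : ℕ × ℕ, ∀ φ ∈ HM M, ∀ x, Obj.re x ∈ M →
      MR Set.univ x → ∀ (X : Set ℝ) (F : ℕ → ℕ → ℝ → ℝ), val (HM M) G φ = famC X F → x G ∈ X →
      (|F y.1 y.2 (x G)| ≤ 1 / ((y.1 : ℝ) + 1) ↔ ∃ p ∈ G, VB φ y.1 y.2 x p)) := by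
    refine Ev.all ?_
    rintro ⟨n, k⟩
    refine ((ev_dense fun (l : List (Obj P J)) => match l with
      | [.nm φ, .re x] => {p | VB φ n k x p ∨ ∃ f, Vb_.Alt φ n k x f p}
      | _ => Set.univ).and
      ((ev_rel fun (l : List (Obj P J)) y => match l with
        | [.nm φ, .re x, .cn p] => ∃ f, y = .re f ∧ Vb_.Alt φ n k x f p
        | _ => False).and
      ((h3 P J hc fun (l : List (Obj P J)) => match l with
        | [.re f] => {G | |f G| ≤ 1 / ((n : ℝ) + 1)}
        | _ => ∅).and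
      ((h3 P J hc fun (l : List (Obj P J)) => match l with
        | [.re f] => {G | |f G| ≤ 1 / ((n : ℝ) + 1)}ᶜ
        | _ => ∅).and
      (ev_mem.and (ev_dir.and (ev_sub.and ((Vb_.ev_nme h4 P J hc).and (h4 P J hc))))))))).mono ?_
    rintro M G ⟨a1, a2, a3, a4, a5, a6, a7, a8, -, a9⟩ φ hφ x hx mx X F hv hX
    constructor
    · intro hF
      obtain ⟨s, hs, hs'⟩ := a1 [.nm φ, .re x] (by
        intro y hy
        rcases List.mem_cons.1 hy with rfl | hy
        · exact hφ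
        · rw [List.mem_singleton.1 hy]; exact hx) (Vb_.dense h1 hc φ n k x)
      rcases hs' with hs' | ⟨f, hf⟩
      · exact ⟨s, hs, hs'⟩
      · exfalso
        obtain ⟨y, hy, f, rfl, mf, hf1, hf2⟩ := a2 [.nm φ, .re x, .cn s] (by
          intro y hy
          rcases List.mem_cons.1 hy with rfl | hy
          · exact hφ
          rcases List.mem_cons.1 hy with rfl | hy
          · exact hx
          · rw [List.mem_singleton.1 hy]; exact a7 s hs) ⟨.re f, f, rfl, hf⟩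
        obtain ⟨b1, b2⟩ := a8 n k x f hx hy mx mf
        have b3 := (a5 _ b1 _ hφ).2 ⟨s, hs, hf1⟩
        rw [b2, hv, Vb_.mem_famC] at b3
        have b4 : G ∈ {G | |f G| ≤ 1 / ((n : ℝ) + 1)}ᶜ :=
          (a4 [.re f] (by
            intro y hy'
            rw [List.mem_singleton.1 hy']; exact hy)).2 s hs hf2
        apply b4
        change |f G| ≤ _
        rw [b3.2]
        exact hF
    · rintro ⟨p, hp, hV⟩
      have b1 : ZFSet.pair (ZFSet.pair (nat n) (nat k))
          (ZFSet.pair (cut (x G)) (cut (F n k (x G)))) ∈ val (HM M) G φ := by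
        rw [hv, Vb_.mem_famC]
        exact ⟨hX, rfl⟩
      have b2 : val (HM M) G φ ∈ NM M G := ⟨φ, hφ, rfl⟩
      have b3 : F n k (x G) ∈ RN (NM M G) :=
        Vb_.pair_snd (Vb_.pair_snd (Mod_trans _ b2 _ b1))
      obtain ⟨f, hf, mf, hfG⟩ := a9 _ b3
      obtain ⟨c1, c2⟩ := a8 n k x f hx hf mx mf
      have c3 : val (HM M) G (Vb_.nme n k x f) ∈ val (HM M) G φ := by
        rw [c2, hfG]
        exact b1
      obtain ⟨q, hq, hm⟩ := (a5 _ c1 _ hφ).1 c3
      obtain ⟨r, hr, hr1, hr2⟩ := a6 p hp q hq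
      have c4 := hV f mf r hr1 (Memf_mono hm hr2)
      have c5 : G ∈ {G | |f G| ≤ 1 / ((n : ℝ) + 1)} := (a3 [.re f] (by
            intro y hy'
            rw [List.mem_singleton.1 hy']; exact hf)).2 r hr c4
      rw [← hfG]
      exact c5
  exact key.mono fun M G h φ hφ x hx mx X F hv hX n k => h (n, k) φ hφ x hx mx X F hv hX

end Pool.Agent.CW
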