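import Pool.Agent.Lib.MP_e2257e_gt.C.Stmts
import Pool.Agent.Lib.MP_e2257e_gt.B.Mr

/-!
# MP_e2257e_gt : names of the moduli of continuity (piece C9)
-/

set_option autoImplicit false

open Filter Topology

namespace Pool.Agent.CW

open Pool.Agent.CR (V Fml Nm Memf Eqf Fr natN pairN val Mod nat rat cut Hull GenF RN BigIx
  IsTransModelZFC)

namespace Wread_

variable {P J : Type} [Preorder P] [LinearOrder J] [OrderTop J]

/-- the analytic part -/
theorem exists_mb {D : Dat P J} (hE : EmbP D.emb) {M : Set (Obj P J)} {G : Set P} {r : ℝ}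
    {f : ℕ → ℝ → ℝ} (hc : ∀ k, ContinuousOn (f k) (XM D M G r))
    (h0 : ∀ x ∈ XM D M G r, Tendsto (fun k => f k x) atTop (𝓝 0)) (i : ℕ) {c : ℝ} (hc0 : 0 < c) :
    ∃ m b : ℕ, i ≤ m ∧ ∀ idx, OkI D idx → InM M idx → Miss (AAt D r idx G) i b →
      |f m (pt D r idx G)| ≤ c := by
  classical
  have hd : ∀ d : Finset (ℕ × ℕ), D.emb (d : Set (ℕ × ℕ)) ∈ XM D M G r :=
    fun d => ⟨.inr d, trivial, trivial, rfl⟩
  have e1 : ∀ᶠ k in atTop, ∀ d ∈ (Finset.range i ×ˢ Finset.range i).powerset,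
      |f k (D.emb ((d : Finset (ℕ × ℕ)) : Set (ℕ × ℕ)))| < c := by
    rw [eventually_all_finset]
    intro d _
    have h1 := (h0 _ (hd d)).abs
    rw [abs_zero] at h1
    exact h1.eventually_lt_const hc0
  obtain ⟨m, hm1, hm2⟩ := (e1.and (eventually_ge_atTop i)).exists
  have e2 : ∀ᶠ ε in 𝓝[>] (0 : ℝ), ∀ d ∈ (Finset.range i ×ˢ Finset.range i).powerset,
      ∀ x ∈ XM D M G r, |x - D.emb ((d : Finset (ℕ × ℕ)) : Set (ℕ × ℕ))| < ε → |f m x| < c := by
    rw [eventually_all_finset]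
    intro d hdS
    have h1 : ContinuousWithinAt (f m) (XM D M G r) (D.emb (d : Set (ℕ × ℕ))) := hc m _ (hd d)
    have h2 : {x | |f m x| < c} ∈ 𝓝[XM D M G r] (D.emb (d : Set (ℕ × ℕ))) :=
      (h1.abs.tendsto).eventually_lt_const (hm1 d hdS)
    rw [Metric.mem_nhdsWithin_iff] at h2
    obtain ⟨ε, hε, h3⟩ := h2
    filter_upwards [Ioo_mem_nhdsGT hε] with ε' hε' x hx hxd
    exact h3 ⟨by rw [Metric.mem_ball, Real.dist_eq]; exact hxd.trans hε'.2, hx⟩
  obtain ⟨ε, hε, hε0⟩ := (e2.and self_mem_nhdsWithin).exists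
  obtain ⟨b, hb⟩ := hE.cts ε hε0
  refine ⟨m, b, hm2, fun idx hok hin hmiss => ?_⟩
  have hx : pt D r idx G ∈ XM D M G r := ⟨idx, hok, hin, rfl⟩
  have hlt := hε ((Finset.range i ×ˢ Finset.range i).filter (· ∈ AAt D r idx G))
    (Finset.mem_powerset.2 (Finset.filter_subset _ _)) _ hx (by
      refine hb _ _ fun u hu v hv => ?_
      simp only [Finset.coe_filter, Finset.mem_product, Finset.mem_range, Set.mem_ofPred_eq]
      constructor
      · intro h
        exact ⟨hmiss _ h hu hv, h⟩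
      · rintro ⟨_, h⟩
        exact h)
  exact hlt.le

/-- the question: the bound `m`, `b` works for all points of the row -/
def QQ (D : Dat P J) (φ : Nm P) (r : ℝ) (n i m b : ℕ) (p : P) : Prop :=
  i ≤ m ∧ ∀ idx, OkI D idx → ∀ q ≤ p, Frc {G | Miss (AAt D r idx G) i b} q →
    VB φ n m (pt D r idx) q

/-- the question for lists of parameters -/
def RL (D : Dat P J) (l : List (Obj P J)) (N K : ℕ) (p : P) : Prop :=
  match l with
  | [.nm φ, .ix r] => QQ D φ r N.unpair.1 N.unpair.2 K.unpair.1 K.unpair.2 p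
  | _ => False

omit [LinearOrder J] [OrderTop J] in
theorem VB_mono {φ : Nm P} {n k : ℕ} {x : Set P → ℝ} {p q : P} (h : VB φ n k x p)
    (hq : q ≤ p) : VB φ n k x q := fun f hf s hs hm => h f hf s (hs.trans hq) hm

theorem ms_abs {f : Set P → ℝ} (hf : MR Set.univ f) (c : ℝ) : MS Set.univ {G | |f G| ≤ c} := by
  have h1 := (mr_proof P Set.univ f).1 hf
  have h2 : {G : Set P | |f G| ≤ c} = f ⁻¹' {y | |y| ≤ c} := rfl
  unfold MS
  rw [h2]
  exact h1 (measurableSet_le (measurable_id.abs) measurable_const)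

theorem dense (h2 : S_decN) (hcc : CCC P) (D : Dat P J) (φ : Nm P) (r : ℝ) {n i m b : ℕ}
    (him : i ≤ m) (p : P) : ∃ q ≤ p, QQ D φ r n i m b q ∨ ∃ idx, OkI D idx ∧
      Frc {G | Miss (AAt D r idx G) i b} q ∧ ∀ s ≤ q, ¬ VB φ n m (pt D r idx) s := by
  obtain ⟨_, _, hd3, hd4, hd5⟩ := h2 P hcc
  by_cases hQ : QQ D φ r n i m b p
  · exact ⟨p, le_rfl, Or.inl hQ⟩
  unfold QQ at hQ
  push Not at hQ
  obtain ⟨idx, hok, q, hqp, hfrc, hnv⟩ := hQ him
  unfold VB at hnv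
  push Not at hnv
  obtain ⟨f, hf, q', hq', hmem, hnf⟩ := hnv
  obtain ⟨q'', hq'', hfc⟩ := hd3 _ (ms_abs hf _) q' hnf
  refine ⟨q'', hq''.trans (hq'.trans hqp), Or.inr ⟨idx, hok, hd5 _ _ _ (hq''.trans hq') hfrc,
    fun s hs hv => ?_⟩⟩
  have h3 := hv f hf s le_rfl (Pool.Agent.CR.Memf_mono hmem (hs.trans hq''))
  exact hd4 _ _ h3 (hd5 _ _ _ hs hfc)

/-- `S_ms` for sets given by an index -/
theorem ev_msI (h4 : S_ms) (hcc : CCC P) (A : ℝ → Ix J → Set (Set P)) :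
    Ev (fun (M : Set (Obj P J)) G => ∀ r, Obj.ix r ∈ M → ∀ idx, InM M idx →
      (MS Set.univ (A r idx) → G ∈ A r idx → ∃ p ∈ G, Frc (A r idx) p) ∧
      ∀ p ∈ G, Frc (A r idx) p → G ∈ A r idx) := by
  have e1 := h4 P J hcc (fun l => match l with
    | [.ix r, .lv α, .lv β] => A r (.inl (α, β))
    | _ => Set.univ)
  have e2 := Ev.all (ι := Finset (ℕ × ℕ)) (fun d => h4 P J hcc (fun l => match l with
    | [.ix r] => A r (.inr d)
    | _ => Set.univ))
  refine (e1.and e2).mono fun M G ⟨h1, h2⟩ r hr idx hin => ?_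
  rcases idx with ⟨α, β⟩ | d
  · exact h1 [.ix r, .lv α, .lv β] (by
      intro x hx
      simp only [List.mem_cons, List.not_mem_nil, or_false] at hx
      rcases hx with rfl | rfl | rfl
      · exact hr
      · exact hin.1
      · exact hin.2)
  · exact h2 d [.ix r] (by
      intro x hx
      simp only [List.mem_cons, List.not_mem_nil, or_false] at hx
      rcases hx with rfl
      exact hr)

/-- indices with a property can be found in `M` -/
theorem ev_idx (R : Nm P → ℝ → P → Ix J → Prop) :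
    Ev (fun (M : Set (Obj P J)) (_ : Set P) => ∀ φ ∈ HM M, ∀ r, Obj.ix r ∈ M → ∀ s,
      Obj.cn s ∈ M → (∃ idx, R φ r s idx) → ∃ idx, InM M idx ∧ R φ r s idx) := by
  have e1 := ev_rel (P := P) (J := J) (fun l x => match l with
    | [.nm φ, .ix r, .cn s] => ∃ α, x = .lv α ∧ ∃ β, R φ r s (.inl (α, β))
    | _ => False)
  have e2 := ev_rel (P := P) (J := J) (fun l x => match l with
    | [.nm φ, .ix r, .cn s, .lv α] => ∃ β, x = .lv β ∧ R φ r s (.inl (α, β))
    | _ => False)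
  refine (e1.and e2).mono fun M G ⟨h1, h2⟩ φ hφ r hr s hs hex => ?_
  obtain ⟨idx, hidx⟩ := hex
  rcases idx with ⟨α, β⟩ | d
  · obtain ⟨x, hx, α', rfl, β', hR⟩ := h1 [.nm φ, .ix r, .cn s] (by
      intro x hx
      simp only [List.mem_cons, List.not_mem_nil, or_false] at hx
      rcases hx with rfl | rfl | rfl
      · exact hφ
      · exact hr
      · exact hs) ⟨.lv α, α, rfl, β, hidx⟩
    obtain ⟨y, hy, β'', rfl, hR'⟩ := h2 [.nm φ, .ix r, .cn s, .lv α'] (by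
      intro x hx'
      simp only [List.mem_cons, List.not_mem_nil, or_false] at hx'
      rcases hx' with rfl | rfl | rfl | rfl
      · exact hφ
      · exact hr
      · exact hs
      · exact hx) ⟨.lv β', β', rfl, hR⟩
    exact ⟨.inl (α', β''), ⟨hx, hy⟩, hR'⟩
  · exact ⟨.inr d, trivial, hidx⟩

theorem ms_miss (h7 : S_pt) {D : Dat P J} (hS : Sys D) (r : ℝ) {idx : Ix J} (hok : OkI D idx)
    (i b : ℕ) : MS Set.univ {G | Miss (AAt D r idx G) i b} := by
  obtain ⟨hy, _, _⟩ := h7 P J D hS r idx hok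
  have heq : {G : Set P | Miss (AAt D r idx G) i b} =
      ⋂ y : ℕ × ℕ, ({G : Set P | y ∈ AAt D r idx G}ᶜ ∪
        {_G : Set P | y.1 < b → y.2 < b → y.1 < i ∧ y.2 < i}) := by
    ext G
    simp only [Set.mem_ofPred_eq, Set.mem_iInter, Set.mem_union, Set.mem_compl_iff]
    constructor
    · intro h y
      by_cases hyA : y ∈ AAt D r idx G
      · exact Or.inr (h y hyA)
      · exact Or.inl hyA
    · intro h y hyA
      exact (h y).resolve_left (fun hn => hn hyA)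
  rw [heq]
  unfold MS at hy ⊢
  let _ : MeasurableSpace (Set P) := Flt Set.univ
  exact MeasurableSet.iInter fun y => (hy y).compl.union (MeasurableSet.const _)

end Wread_

open Wread_

theorem wread_proof (h1 : S_loc) (h2 : S_decN) (h3 : S_ae) (h4 : S_ms) (h5 : S_read)
    (h6 : S_vb) (h7 : S_pt) (h8 : S_EX) : S_wread := by
  intro P J _ _ _ D hS
  obtain ⟨Gw, hGw, hev⟩ := h5 P J hS.ccc (RL D)
  refine ⟨Gw, hGw, ?_⟩
  have e1 := Ev.all (ι := ℕ × ℕ) (fun x => ev_msI h4 hS.ccc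
    (fun r idx => {G | Miss (AAt D r idx G) x.1 x.2}))
  have e2 := Ev.all (ι := (ℕ × ℕ) × (ℕ × ℕ)) (fun x => ev_idx (P := P) (J := J)
    (fun φ r s idx => OkI D idx ∧ Frc {G | Miss (AAt D r idx G) x.1.1 x.1.2} s ∧
      ∀ q ≤ s, ¬ VB φ x.2.1 x.2.2 (pt D r idx) q))
  have e3 := Ev.all (ι := (ℕ × ℕ) × (ℕ × ℕ)) (fun x => ev_dense (P := P) (J := J)
    (fun l => match l with
      | [.nm φ, .ix r] => {q | QQ D φ r x.2.1 x.1.1 x.2.2 x.1.2 q ∨ ∃ idx, OkI D idx ∧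
        Frc {G | Miss (AAt D r idx G) x.1.1 x.1.2} q ∧
          ∀ s ≤ q, ¬ VB φ x.2.1 x.2.2 (pt D r idx) s}
      | _ => Set.univ))
  refine (hev.and (e1.and (e2.and (e3.and ((h6 P J hS.ccc).and ((h8 P J D hS).and
    (ev_sub.and ev_dir))))))).mono
    fun M G ⟨hread, hms, hidx, hdn, hvb, hEX, hsub, hdir⟩ φ hφ r hr F hF hFc hF0 n i => ?_
  have hl : ∀ x ∈ ([.nm φ, .ix r] : List (Obj P J)), x ∈ M := by
    intro x hx
    simp only [List.mem_cons, List.not_mem_nil, or_false] at hx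
    rcases hx with rfl | rfl
    · exact hφ
    · exact hr
  have hval : ∀ idx, OkI D idx → InM M idx → ∀ n k,
      (|F n k (pt D r idx G)| ≤ 1 / ((n : ℝ) + 1) ↔ ∃ p ∈ G, VB φ n k (pt D r idx) p) :=
    fun idx hok hin n k => hvb φ hφ (pt D r idx) ((hEX.1 r hr).2 idx hok hin)
      (h7 P J D hS r idx hok).2.1 _ F hF ⟨idx, hok, hin, rfl⟩ n k
  -- the question has an answer
  have hans : ∃ p ∈ G, ∃ K, RL D [.nm φ, .ix r] (Nat.pair n i) K p := by
    obtain ⟨m, b, him, hmb⟩ := exists_mb hS.emb (f := F n) (hFc n) (hF0 n) i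
      (c := 1 / ((n : ℝ) + 1)) (by positivity)
    obtain ⟨s, hs, hs'⟩ := hdn ((i, b), (n, m)) [.nm φ, .ix r] hl (fun p => by
      obtain ⟨q, hq, hq'⟩ := dense h2 hS.ccc D φ r (n := n) (b := b) him p
      exact ⟨q, hq, hq'⟩)
    rcases hs' with hQ | hbad
    · refine ⟨s, hs, Nat.pair m b, ?_⟩
      change QQ D φ r _ _ _ _ s
      rw [Nat.unpair_pair, Nat.unpair_pair]
      exact hQ
    · exfalso
      obtain ⟨idx, hin, hok, hfrc, hnv⟩ := hidx ((i, b), (n, m)) φ hφ r hr s (hsub s hs) hbad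
      have hmiss : Miss (AAt D r idx G) i b := (hms (i, b) r hr idx hin).2 s hs hfrc
      obtain ⟨p, hp, hpv⟩ := (hval idx hok hin n m).1 (hmb idx hok hin hmiss)
      obtain ⟨q, _, hq1, hq2⟩ := hdir p hp s hs
      exact hnv q hq2 (VB_mono hpv hq1)
  obtain ⟨p, hp, hR⟩ := hread [.nm φ, .ix r] hl (Nat.pair n i) hans
  change QQ D φ r _ _ _ _ p at hR
  rw [Nat.unpair_pair] at hR
  refine ⟨hR.1, fun idx hok hin hmiss => ?_⟩
  rw [hval idx hok hin]
  obtain ⟨q, hq, hqf⟩ := (hms (i, _) r hr idx hin).1 (ms_miss h7 hS r hok i _) hmiss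
  obtain ⟨s, hs, hs1, hs2⟩ := hdir p hp q hq
  exact ⟨s, hs, hR.2 idx hok s hs1 ((h2 P hS.ccc).2.2.2.2 _ _ _ hs2 hqf)⟩

end Pool.Agent.CW
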